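import Mathlib

set_option autoImplicit false

/-!
# Elimination over the ring of generic parameters

If a system of polynomial equations with parameters has no complex solution for one algebraically
independent value of the parameters, then it has no solution, in any field, for all values of the
parameters at which some nonzero integral polynomial does not vanish.
-/

namespace Pool.Agent.Q51.HG

open MvPolynomial

attribute [local instance] algebraMvPolynomial

theorem transfer {σ τ : Type} [Finite τ] (I : Ideal (MvPolynomial τ (MvPolynomial σ ℤ)))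
    (a : σ → ℂ) (ha : AlgebraicIndependent ℤ a)
    (hno : ∀ y : τ → ℂ, ∃ p ∈ I,
      eval₂ (aeval a : MvPolynomial σ ℤ →ₐ[ℤ] ℂ).toRingHom y p ≠ 0) :
    ∃ h : MvPolynomial σ ℤ, h ≠ 0 ∧ C h ∈ I := by
  let A := MvPolynomial σ ℤ
  let k := FractionRing A
  have hinj : Function.Injective (aeval a : MvPolynomial σ ℤ →ₐ[ℤ] ℂ).toRingHom := ha
  let φ : k →+* ℂ := IsFractionRing.lift (A := A) (K := k) hinj
  have hφ : ∀ x : A, φ (algebraMap A k x) = aeval a x := fun x =>
    IsFractionRing.lift_algebraMap hinj x
  let : Algebra k ℂ := φ.toAlgebra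
  let J : Ideal (MvPolynomial τ k) := I.map (algebraMap (MvPolynomial τ A) (MvPolynomial τ k))
  have hz : zeroLocus ℂ J = ∅ := by
    rw [Set.eq_empty_iff_forall_notMem]
    intro y hy
    obtain ⟨p, hp, hpy⟩ := hno y
    apply hpy
    have h1 := hy _ (Ideal.mem_map_of_mem (algebraMap (MvPolynomial τ A) (MvPolynomial τ k)) hp)
    rw [MvPolynomial.algebraMap_def, MvPolynomial.aeval_def, MvPolynomial.eval₂_map] at h1
    rw [← h1]
    congr 1
    ext x
    · exact (hφ _).symm
    · exact (hφ _).symm
  have h2 : vanishingIdeal k (zeroLocus ℂ J) = ⊤ := by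
    rw [hz, eq_top_iff]
    intro p _ x hx
    exact absurd hx (Set.notMem_empty x)
  rw [vanishingIdeal_zeroLocus_eq_radical, Ideal.radical_eq_top] at h2
  have h3 : (1 : MvPolynomial τ k) ∈ I.map (algebraMap (MvPolynomial τ A) (MvPolynomial τ k)) :=
    (Ideal.eq_top_iff_one _).1 h2
  rw [IsLocalization.mem_map_algebraMap_iff ((nonZeroDivisors A).map (C (σ := τ)))] at h3
  obtain ⟨⟨x, s⟩, h4⟩ := h3
  rw [one_mul] at h4
  obtain ⟨h, hh, hs⟩ := s.2
  refine ⟨h, nonZeroDivisors.ne_zero hh, ?_⟩
  have h5 : (s : MvPolynomial τ A) = x := by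
    have hinj2 : Function.Injective (algebraMap (MvPolynomial τ A) (MvPolynomial τ k)) := by
      rw [MvPolynomial.algebraMap_def]
      exact MvPolynomial.map_injective _ (IsFractionRing.injective A k)
    exact hinj2 h4
  have h6 : (C h : MvPolynomial τ A) = x := by
    rw [← h5]
    exact hs
  rw [h6]
  exact x.2

end Pool.Agent.Q51.HG
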