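import Mathlib
import Pool.Agent.H533R3.SL.Cur
import Pool.Agent.TH182.VD.Main
import Pool.Agent.Q51.HG.Tr

set_option autoImplicit false

/-!
# The universal forms and the universal curve with few terms
-/

namespace Pool.Agent.Q51.HG

open MvPolynomial Pool.Agent.H533R3.SL
open Pool.Agent.TH182.VD (CI)

variable {N r q : ℕ}

/-- The exponents of degree `e`. -/
noncomputable def expo (N e : ℕ) : Finset (Fin (N + 1) →₀ ℕ) :=
  Finset.finsuppAntidiag Finset.univ e

theorem mem_expo {e : ℕ} {α : Fin (N + 1) →₀ ℕ} : α ∈ expo N e ↔ α.degree = e := by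
  unfold expo
  rw [Finset.mem_finsuppAntidiag, Finsupp.degree_eq_sum]
  simp

/-- The universal form with index `i`. -/
noncomputable def uF (N : ℕ) (d : Fin q → ℕ) (i : Fin q) :
    MvPolynomial (Fin (N + 1)) (MvPolynomial (CI N d) ℤ) :=
  ∑ α ∈ (expo N (d i)).attach, monomial α.1 (X ⟨i, α.1, mem_expo.1 α.2⟩)

/-- The specialisation of the coefficients. -/
noncomputable def sp {L : Type} [CommRing L] (d : Fin q → ℕ)
    (F : Fin q → MvPolynomial (Fin (N + 1)) L) : MvPolynomial (CI N d) ℤ →ₐ[ℤ] L :=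
  aeval fun x => coeff x.2.1 (F x.1)

theorem map_uF {L : Type} [CommRing L] (d : Fin q → ℕ)
    (F : Fin q → MvPolynomial (Fin (N + 1)) L) (hF : ∀ i, (F i).IsHomogeneous (d i)) (i : Fin q) :
    MvPolynomial.map (sp d F).toRingHom (uF N d i) = F i := by
  classical
  unfold uF
  rw [map_sum]
  have h1 : ∀ α ∈ (expo N (d i)).attach, MvPolynomial.map (sp d F).toRingHom
      (monomial α.1 (X ⟨i, α.1, mem_expo.1 α.2⟩)) = monomial α.1 (coeff α.1 (F i)) := by
    intro α _
    rw [map_monomial]
    congr 1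
    change sp d F _ = _
    unfold sp
    rw [aeval_X]
  rw [Finset.sum_congr rfl h1, Finset.sum_attach (expo N (d i)) fun α => monomial α (coeff α (F i))]
  conv_rhs => rw [(F i).as_sum]
  symm
  apply Finset.sum_subset
  · intro α hα
    rw [mem_expo, Finsupp.degree_eq_weight_one]
    exact hF i (mem_support_iff.1 hα)
  · intro α _ hα
    rw [notMem_support_iff.1 hα, monomial_zero]

/-- The ring of the coefficients of the forms and of the curve. -/
abbrev BR (N r : ℕ) (d : Fin q → ℕ) : Type :=
  MvPolynomial (Option (Fin r × Fin (N + 1))) (MvPolynomial (CI N d) ℤ)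

/-- The universal vectors. -/
noncomputable def uc (N r : ℕ) (d : Fin q → ℕ) (j : Fin r) (i : Fin (N + 1)) : BR N r d :=
  X (some (j, i))

/-- The universal value of the form on the universal curve. -/
noncomputable def uV (N r : ℕ) (d : Fin q → ℕ) (l : Fin r → ℕ) (i : Fin q) :
    Polynomial (BR N r d) :=
  aeval (cur (uc N r d) l) (uF N d i)

/-- the point of the parameter space -/
noncomputable def pt {L : Type} [CommRing L] (d : Fin q → ℕ)
    (F : Fin q → MvPolynomial (Fin (N + 1)) L) (c : Fin r → Fin (N + 1) → L) (w : L) :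
    BR N r d →+* L :=
  eval₂Hom (sp d F).toRingHom (fun o => o.elim w fun p => c p.1 p.2)

section

variable {L : Type} [CommRing L] (d : Fin q → ℕ) (F : Fin q → MvPolynomial (Fin (N + 1)) L)
  (c : Fin r → Fin (N + 1) → L) (w : L)

theorem pt_C (x : MvPolynomial (CI N d) ℤ) : pt d F c w (C x) = sp d F x := by
  unfold pt
  rw [eval₂Hom_C]
  rfl

theorem pt_uc (j : Fin r) (i : Fin (N + 1)) : pt d F c w (uc N r d j i) = c j i := by
  unfold pt uc
  rw [eval₂Hom_X']
  rfl

theorem pt_none : pt d F c w (X none) = w := by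
  unfold pt
  rw [eval₂Hom_X']
  rfl

theorem map_cur (l : Fin r → ℕ) (i : Fin (N + 1)) :
    (cur (uc N r d) l i).map (pt d F c w) = cur c l i := by
  unfold cur
  rw [Polynomial.map_sum]
  refine Finset.sum_congr rfl fun j _ => ?_
  rw [Polynomial.map_mul, Polynomial.map_C, Polynomial.map_pow, Polynomial.map_X, pt_uc]

theorem map_uV (hF : ∀ i, (F i).IsHomogeneous (d i)) (l : Fin r → ℕ) (i : Fin q) :
    (uV N r d l i).map (pt d F c w) = aeval (cur c l) (F i) := by
  unfold uV
  conv_rhs => rw [← map_uF d F hF i]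
  rw [aeval_def, aeval_def, eval₂_map, ← Polynomial.coe_mapRingHom, MvPolynomial.hom_eval₂]
  congr 1
  · ext x
    · simp
    · simp only [RingHom.comp_apply, MvPolynomial.algebraMap_eq, Polynomial.coe_mapRingHom,
        Polynomial.algebraMap_apply, Polynomial.map_C, pt_C]
      rfl
  · funext i
    exact map_cur d F c w l i

end

/-- The universal minor. -/
noncomputable def uM (N r : ℕ) (d : Fin q → ℕ) (l : Fin r → ℕ) (i1 i2 : Fin (N + 1)) (w0 : ℕ) :
    BR N r d :=
  (cur (uc N r d) l i1 * Polynomial.C (∑ j, uc N r d j i2) -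
    cur (uc N r d) l i2 * Polynomial.C (∑ j, uc N r d j i1)).coeff w0

theorem pt_uM {L : Type} [CommRing L] (d : Fin q → ℕ) (F : Fin q → MvPolynomial (Fin (N + 1)) L)
    (c : Fin r → Fin (N + 1) → L) (w : L) (l : Fin r → ℕ) (i1 i2 : Fin (N + 1)) (w0 : ℕ) :
    pt d F c w (uM N r d l i1 i2 w0) = (cur c l i1 * Polynomial.C (∑ j, c j i2) -
      cur c l i2 * Polynomial.C (∑ j, c j i1)).coeff w0 := by
  have e1 : ∀ i, pt d F c w (∑ j, uc N r d j i) = ∑ j, c j i := fun i => by
    rw [map_sum]
    exact Finset.sum_congr rfl fun j _ => pt_uc d F c w j i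
  unfold uM
  rw [← Polynomial.coeff_map, Polynomial.map_sub, Polynomial.map_mul, Polynomial.map_mul,
    map_cur, map_cur, Polynomial.map_C, Polynomial.map_C, e1, e1]

end Pool.Agent.Q51.HG
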