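import Mathlib
import Pool.Agent.Q51.HG.Univ
import Pool.Agent.H533R3.SL.Asm

set_option autoImplicit false

/-!
# Curves with few terms in the strata of general hypersurfaces
-/

namespace Pool.Agent.Q51.HG

open MvPolynomial Pool.Agent.H533R3.SL
open Pool.Agent.TH182.VD (CI)

variable {N r q : ℕ}

/-- algebraically independent numbers over a countable subfield -/
theorem exists_indep (k₁ : Subfield ℂ) (hk : Countable k₁) (ι : Type) [Countable ι] :
    ∃ a : ι → ℂ, AlgebraicIndependent k₁ a := by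
  obtain ⟨κ, x, hx⟩ := exists_isTranscendenceBasis' k₁ ℂ
  have h1 := IsAlgClosed.cardinal_le_max_transcendence_basis' x hx
  have h2 : Cardinal.aleph0 ≤ Cardinal.mk κ := by
    by_contra hcon
    rw [not_le] at hcon
    have h3 : Cardinal.mk ℂ ≤ Cardinal.aleph0 :=
      h1.trans (max_le (max_le (Cardinal.mk_le_aleph0_iff.2 hk) hcon.le) le_rfl)
    rw [Cardinal.mk_complex] at h3
    exact absurd h3 (not_le.2 Cardinal.aleph0_lt_continuum)
  have h3 : Cardinal.mk ι ≤ Cardinal.mk κ := (Cardinal.mk_le_aleph0_iff.2 inferInstance).trans h2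
  obtain ⟨f⟩ := Cardinal.le_def _ _ |>.1 h3
  exact ⟨fun i => x (f i), hx.1.comp f f.injective⟩

theorem coeff_uF (d : Fin q → ℕ) (i : Fin q) (α : Fin (N + 1) →₀ ℕ) (hα : α.degree = d i) :
    coeff α (uF N d i) = X ⟨i, α, hα⟩ := by
  classical
  unfold uF
  rw [coeff_sum, Finset.sum_eq_single ⟨α, mem_expo.2 hα⟩]
  · rw [coeff_monomial, if_pos rfl]
  · intro β _ hβ
    rw [coeff_monomial, if_neg fun h => hβ (Subtype.ext h)]
  · intro h
    exact absurd (Finset.mem_attach _ _) h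

theorem uF_homogeneous (d : Fin q → ℕ) (i : Fin q) : (uF N d i).IsHomogeneous (d i) := by
  unfold uF
  apply IsHomogeneous.sum
  intro α _
  exact isHomogeneous_monomial _ (mem_expo.1 α.2)

/-- The generic forms. -/
noncomputable def gF (N : ℕ) (d : Fin q → ℕ) (a : CI N d → ℂ) (i : Fin q) :
    MvPolynomial (Fin (N + 1)) ℂ :=
  MvPolynomial.map (aeval a : MvPolynomial (CI N d) ℤ →ₐ[ℤ] ℂ).toRingHom (uF N d i)

theorem gF_hom (d : Fin q → ℕ) (a : CI N d → ℂ) (i : Fin q) :
    (gF N d a i).IsHomogeneous (d i) := (uF_homogeneous d i).map _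

theorem coeff_gF (d : Fin q → ℕ) (a : CI N d → ℂ) (x : CI N d) :
    coeff x.2.1 (gF N d a x.1) = a x := by
  unfold gF
  rw [coeff_map, coeff_uF d x.1 x.2.1 x.2.2]
  change aeval a (X x) = a x
  rw [aeval_X]

theorem sp_gF (d : Fin q → ℕ) (a : CI N d → ℂ) : sp d (gF N d a) = aeval a := by
  unfold sp
  congr 1
  funext x
  exact coeff_gF d a x

theorem trdeg_empty (N : ℕ) (κ : Type) [IsEmpty κ] (G : κ → MvPolynomial (Fin (N + 1)) ℂ) :
    Algebra.trdeg ℂ (MvPolynomial (Fin (N + 1)) ℂ ⧸ Ideal.span (Set.range G)) ≤ N + 1 := by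
  have h1 : Ideal.span (Set.range G) = ⊥ := by
    rw [Set.range_eq_empty, Ideal.span_empty]
  rw [h1, ← (AlgEquiv.quotientBot ℂ (MvPolynomial (Fin (N + 1)) ℂ)).symm.trdeg_eq,
    MvPolynomial.trdeg_of_isDomain]
  simp

/-- The generic forms over the field generated by countably many numbers have no nonconstant morphisms
from the multiplicative group to the stratum. -/
def NoGm (N : ℕ) (d : Fin q → ℕ) (Z : Finset (Fin q)) : Prop :=
  ∃ k₁ : Subfield ℂ, Countable k₁ ∧ ∀ F : Fin q → MvPolynomial (Fin (N + 1)) ℂ,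
    (∀ i, (F i).IsHomogeneous (d i)) →
    AlgebraicIndependent k₁ (fun x : CI N d => coeff x.2.1 (F x.1)) →
    ∀ P, ¬ Pool.Agent.TH143.IsGmCurve (Sum.elim (Empty.elim : Empty → MvPolynomial (Fin (N + 1)) ℂ)
      (fun i : {i // i ∈ Z} => F i.1)) (∏ i ∈ Finset.univ \ Z, F i) P

theorem noGm (N : ℕ) (d : Fin q → ℕ) (Z : Finset (Fin q)) (hZ : 2 * N + 1 ≤ ∑ i, d i + Z.card) :
    NoGm N d Z := by
  obtain ⟨k₁, hk₁, hmain⟩ := Pool.Agent.TH182.VD.main (N := N) (m := N)
    (Empty.elim : Empty → MvPolynomial (Fin (N + 1)) ℂ) (fun i => i.elim) (trdeg_empty N Empty _)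
  exact ⟨k₁, hk₁, fun F hF hind P hP => hmain q d F hF hind Z hZ P hP⟩

theorem aux_of (d : Fin q → ℕ) (Z : Finset (Fin q)) (hZ : NoGm N d Z)
    (l : Fin r → ℕ) (v : Fin q → ℕ) (i1 i2 : Fin (N + 1)) (w0 : ℕ) :
    ∃ h : MvPolynomial (CI N d) ℤ, h ≠ 0 ∧ ∀ (L : Type) [Field L]
      (F : Fin q → MvPolynomial (Fin (N + 1)) L), (∀ i, (F i).IsHomogeneous (d i)) →
      sp d F h ≠ 0 → ∀ c : Fin r → Fin (N + 1) → L, (∀ i ∈ Z, aeval (cur c l) (F i) = 0) →
      (∀ i, i ∉ Z → (aeval (cur c l) (F i)).coeff (v i) ≠ 0 ∧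
        ∀ t, t ≠ v i → (aeval (cur c l) (F i)).coeff t = 0) →
      (cur c l i1 * Polynomial.C (∑ j, c j i2) -
        cur c l i2 * Polynomial.C (∑ j, c j i1)).coeff w0 = 0 := by
  classical
  obtain ⟨T, hTdef⟩ : ∃ T : BR N r d,
    T = uM N r d l i1 i2 w0 * ∏ i ∈ Finset.univ \ Z, (uV N r d l i).coeff (v i) := ⟨_, rfl⟩
  let S : Set (BR N r d) := {x | ∃ i ∈ Z, ∃ t, x = (uV N r d l i).coeff t} ∪
    {x | ∃ i, i ∉ Z ∧ ∃ t, t ≠ v i ∧ x = (uV N r d l i).coeff t} ∪ {X none * T - 1}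
  obtain ⟨k₁, hk₁, hmain⟩ := hZ
  have : Countable (CI N d) := by unfold CI; infer_instance
  obtain ⟨a, ha⟩ := exists_indep k₁ hk₁ (CI N d)
  have haZ : AlgebraicIndependent ℤ a := by
    have h1 : AlgebraicIndependent ℚ a := ha.restrictScalars (algebraMap ℚ k₁).injective
    exact h1.restrictScalars (algebraMap ℤ ℚ).injective_int
  have key : ∀ y : Option (Fin r × Fin (N + 1)) → ℂ, ∀ p : BR N r d,
      eval₂ (aeval a : MvPolynomial (CI N d) ℤ →ₐ[ℤ] ℂ).toRingHom y p =
        pt d (gF N d a) (fun j i => y (some (j, i))) (y none) p := by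
    intro y p
    unfold pt
    rw [sp_gF, coe_eval₂Hom]
    congr 1
    funext o
    cases o <;> rfl
  obtain ⟨h, hh, hI⟩ := transfer (Ideal.span S) a haZ (by
    intro y
    by_contra hcon
    push Not at hcon
    set c : Fin r → Fin (N + 1) → ℂ := fun j i => y (some (j, i)) with hc
    have hS : ∀ x ∈ S, pt d (gF N d a) c (y none) x = 0 := fun x hx => by
      rw [← key]
      exact hcon x (Ideal.subset_span hx)
    have hFZ : ∀ i ∈ Z, aeval (cur c l) (gF N d a i) = 0 := by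
      intro i hi
      ext t
      rw [← map_uV d (gF N d a) c (y none) (gF_hom d a) l i, Polynomial.coeff_map,
        Polynomial.coeff_zero]
      exact hS _ (Or.inl (Or.inl ⟨i, hi, t, rfl⟩))
    have hFC : ∀ i, i ∉ Z → ∀ t, t ≠ v i → (aeval (cur c l) (gF N d a i)).coeff t = 0 := by
      intro i hi t ht
      rw [← map_uV d (gF N d a) c (y none) (gF_hom d a) l i, Polynomial.coeff_map]
      exact hS _ (Or.inl (Or.inr ⟨i, hi, t, ht, rfl⟩))
    have hT : pt d (gF N d a) c (y none) T ≠ 0 := by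
      intro h0
      have h1 := hS _ (Or.inr rfl)
      rw [map_sub, map_mul, h0, mul_zero, map_one, zero_sub, neg_eq_zero] at h1
      exact one_ne_zero h1
    rw [hTdef, map_mul, map_prod] at hT
    have hM := left_ne_zero_of_mul hT
    have hP : ∀ i, i ∉ Z → (aeval (cur c l) (gF N d a i)).coeff (v i) ≠ 0 := by
      intro i hi
      rw [← map_uV d (gF N d a) c (y none) (gF_hom d a) l i, Polynomial.coeff_map]
      exact (Finset.prod_ne_zero_iff.1 (right_ne_zero_of_mul hT)) i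
        (Finset.mem_sdiff.2 ⟨Finset.mem_univ i, hi⟩)
    rw [pt_uM] at hM
    have hFm : ∀ i, i ∉ Z → aeval (cur c l) (gF N d a i) =
        Polynomial.monomial (v i) ((aeval (cur c l) (gF N d a i)).coeff (v i)) := by
      intro i hi
      ext t
      rw [Polynomial.coeff_monomial]
      split_ifs with h
      · rw [h]
      · exact hFC i hi t (Ne.symm h)
    have hne : cur c l i1 * Polynomial.C (∑ j, c j i2) -
        cur c l i2 * Polynomial.C (∑ j, c j i1) ≠ 0 := fun h0 => hM (by rw [h0]; simp)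
    obtain ⟨t, ht0, ht⟩ : ∃ t : ℂ, t ≠ 0 ∧ (cur c l i1 * Polynomial.C (∑ j, c j i2) -
        cur c l i2 * Polynomial.C (∑ j, c j i1)).eval t ≠ 0 := by
      by_contra hcon2
      push Not at hcon2
      apply hne
      apply Polynomial.eq_zero_of_infinite_isRoot
      exact ((Set.finite_singleton (0 : ℂ)).infinite_compl).mono fun t ht => hcon2 t ht
    rw [Polynomial.eval_sub, Polynomial.eval_mul, Polynomial.eval_mul, Polynomial.eval_C,
      Polynomial.eval_C, ← cur_eval_one c l i1, ← cur_eval_one c l i2] at ht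
    have hQh : (∏ i ∈ Finset.univ \ Z, gF N d a i).IsHomogeneous
        (∑ i ∈ Finset.univ \ Z, d i) := IsHomogeneous.prod _ _ _ fun i _ => gF_hom d a i
    obtain ⟨P, -, hP1, -⟩ := Pool.Agent.TH143.gm_of_laur
      (Sum.elim (Empty.elim : Empty → MvPolynomial (Fin (N + 1)) ℂ)
        (fun i : {i // i ∈ Z} => gF N d a i.1)) (by
          rintro (i | i)
          · exact i.elim
          · exact ⟨_, gF_hom d a i.1⟩) _ hQh (fun t i => (cur c l i).eval t)
      (fun j => Pool.Agent.H159R3.Exp.Laur.poly (cur c l j)) (by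
        intro h0
        have e1 : (cur c l i1).eval 1 = 0 := congrFun h0 i1
        have e2 : (cur c l i2).eval 1 = 0 := congrFun h0 i2
        apply ht
        rw [e1, e2, mul_zero, mul_zero, sub_zero]) (by
        rintro (i | i) t _
        · exact i.elim
        · change eval _ (gF N d a i.1) = 0
          rw [← Pool.Agent.TH182.VD.eval_aeval, hFZ i.1 i.2, Polynomial.eval_zero]) (by
        intro t ht
        rw [map_prod, Finset.prod_ne_zero_iff]
        intro i hi
        have hi' : i ∉ Z := (Finset.mem_sdiff.1 hi).2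
        rw [← Pool.Agent.TH182.VD.eval_aeval, hFm i hi', Polynomial.eval_monomial]
        exact mul_ne_zero (hP i hi') (pow_ne_zero _ ht)) ⟨t, ht0, i2, i1, fun h => ht (by
          linear_combination h)⟩
    exact hmain (gF N d a) (gF_hom d a) (by
      have e : (fun x : CI N d => coeff x.2.1 (gF N d a x.1)) = a := by
        funext x
        exact coeff_gF d a x
      rw [e]
      exact ha) P hP1)
  refine ⟨h, hh, ?_⟩
  intro L _ F hF hsp c hZ0 hC0
  by_contra hM
  let τ : L := (cur c l i1 * Polynomial.C (∑ j, c j i2) -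
        cur c l i2 * Polynomial.C (∑ j, c j i1)).coeff w0 *
    ∏ i ∈ Finset.univ \ Z, (aeval (cur c l) (F i)).coeff (v i)
  have hτ : τ ≠ 0 := mul_ne_zero hM (Finset.prod_ne_zero_iff.2 fun i hi =>
    (hC0 i (Finset.mem_sdiff.1 hi).2).1)
  have hle : Ideal.span S ≤ RingHom.ker (pt d F c τ⁻¹) := by
    rw [Ideal.span_le]
    rintro x ((⟨i, hi, t, rfl⟩ | ⟨i, hi, t, ht, rfl⟩) | rfl)
    · change pt d F c τ⁻¹ _ = 0
      rw [← Polynomial.coeff_map, map_uV d F c _ hF, hZ0 i hi, Polynomial.coeff_zero]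
    · change pt d F c τ⁻¹ _ = 0
      rw [← Polynomial.coeff_map, map_uV d F c _ hF]
      exact (hC0 i hi).2 t ht
    · change pt d F c τ⁻¹ _ = 0
      have e1 : pt d F c τ⁻¹ T = τ := by
        rw [hTdef, map_mul, map_prod, pt_uM]
        congr 1
        refine Finset.prod_congr rfl fun i _ => ?_
        rw [← Polynomial.coeff_map, map_uV d F c _ hF]
      rw [map_sub, map_mul, pt_none, e1, inv_mul_cancel₀ hτ, map_one, sub_self]
  have h5 : pt d F c τ⁻¹ (C h) = 0 := hle hI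
  rw [pt_C] at h5
  exact hsp h5

theorem aux (d : Fin q → ℕ) (Z : Finset (Fin q)) (hZ : 2 * N + 1 ≤ ∑ i, d i + Z.card)
    (l : Fin r → ℕ) (v : Fin q → ℕ) (i1 i2 : Fin (N + 1)) (w0 : ℕ) :
    ∃ h : MvPolynomial (CI N d) ℤ, h ≠ 0 ∧ ∀ (L : Type) [Field L]
      (F : Fin q → MvPolynomial (Fin (N + 1)) L), (∀ i, (F i).IsHomogeneous (d i)) →
      sp d F h ≠ 0 → ∀ c : Fin r → Fin (N + 1) → L, (∀ i ∈ Z, aeval (cur c l) (F i) = 0) →
      (∀ i, i ∉ Z → (aeval (cur c l) (F i)).coeff (v i) ≠ 0 ∧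
        ∀ t, t ≠ v i → (aeval (cur c l) (F i)).coeff t = 0) →
      (cur c l i1 * Polynomial.C (∑ j, c j i2) -
        cur c l i2 * Polynomial.C (∑ j, c j i1)).coeff w0 = 0 :=
  aux_of d Z (noGm N d Z hZ) l v i1 i2 w0

end Pool.Agent.Q51.HG
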