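import Mathlib
import Pool.Agent.Q51.HG.Gen

set_option autoImplicit false

/-!
# Curves with a given number of terms in the strata of general hypersurfaces
-/

namespace Pool.Agent.Q51.HG

open MvPolynomial Pool.Agent.H533R3.SL
open Pool.Agent.TH182.VD (CI)

variable {N r q : ℕ}

theorem coeff_cur {k L : Type} [Field k] [Field L] [Algebra k L]
    (c : Fin r → Fin (N + 1) → L) (l : Fin r → ℕ) (F : MvPolynomial (Fin (N + 1)) k) (t : ℕ) :
    (MvPolynomial.aeval (cur c l) F).coeff t =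
      ∑ α ∈ (GU c F).support, if ∑ j, α j * l j = t then coeff α (GU c F) else 0 := by
  rw [aeval_cur, Polynomial.finsetSum_coeff]
  refine Finset.sum_congr rfl fun α _ => ?_
  rw [Polynomial.coeff_C_mul_X_pow]
  by_cases h : ∑ j, α j * l j = t
  · rw [if_pos h, if_pos h.symm]
  · rw [if_neg h, if_neg (Ne.symm h)]

/-- a monomial stays a monomial with the same coefficient -/
theorem cur_mono_transfer {k L : Type} [Field k] [Field L] [Algebra k L] (D : ℕ)
    (l l' : Fin r → ℕ) (h : pat D l = pat D l')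
    (c : Fin r → Fin (N + 1) → L) (F : MvPolynomial (Fin (N + 1)) k) (e : ℕ) (he : e ≤ D)
    (hF : F.IsHomogeneous e) (v : ℕ) (hv : (MvPolynomial.aeval (cur c l) F).coeff v ≠ 0)
    (h0 : ∀ t, t ≠ v → (MvPolynomial.aeval (cur c l) F).coeff t = 0) :
    ∃ v', v' ≤ D * ∑ j, l' j ∧ (MvPolynomial.aeval (cur c l') F).coeff v' ≠ 0 ∧
      ∀ t, t ≠ v' → (MvPolynomial.aeval (cur c l') F).coeff t = 0 := by
  classical
  have hle : ∀ α ∈ (GU c F).support, ∀ j, α j ≤ D := fun α hα j =>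
    (GU_deg c F e hF α hα j).trans he
  have hiff : ∀ α ∈ (GU c F).support, ∀ β ∈ (GU c F).support,
      (∑ j, α j * l j = ∑ j, β j * l j ↔ ∑ j, α j * l' j = ∑ j, β j * l' j) := fun α hα β hβ =>
    ⟨pat_imp D l l' h α β (hle α hα) (hle β hβ), pat_imp D l' l h.symm α β (hle α hα) (hle β hβ)⟩
  have hco : ∀ α ∈ (GU c F).support, (MvPolynomial.aeval (cur c l') F).coeff (∑ j, α j * l' j) =
      (MvPolynomial.aeval (cur c l) F).coeff (∑ j, α j * l j) := by
    intro α hα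
    rw [coeff_cur, coeff_cur]
    refine Finset.sum_congr rfl fun β hβ => ?_
    exact if_congr (hiff β hβ α hα).symm rfl rfl
  have hno : ∀ (l : Fin r → ℕ) (t : ℕ), (MvPolynomial.aeval (cur c l) F).coeff t ≠ 0 →
      ∃ α ∈ (GU c F).support, ∑ j, α j * l j = t := by
    intro l t ht
    rw [coeff_cur] at ht
    obtain ⟨α, hα, h1⟩ := Finset.exists_ne_zero_of_sum_ne_zero ht
    refine ⟨α, hα, ?_⟩
    by_contra h2
    rw [if_neg h2] at h1
    exact h1 rfl
  obtain ⟨α0, hα0, hv0⟩ := hno l v hv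
  refine ⟨∑ j, α0 j * l' j, ?_, ?_, ?_⟩
  · rw [Finset.mul_sum]
    exact Finset.sum_le_sum fun j _ => Nat.mul_le_mul_right _ (hle α0 hα0 j)
  · rw [hco α0 hα0, hv0]
    exact hv
  · intro t ht
    by_contra hne
    obtain ⟨α, hα, rfl⟩ := hno l' t hne
    rw [hco α hα] at hne
    by_cases h1 : ∑ j, α j * l j = v
    · apply ht
      exact (hiff α hα α0 hα0).1 (h1.trans hv0.symm)
    · exact hne (h0 _ h1)

theorem pat_rep_bound (D : ℕ) : ∃ B : ℕ, ∀ P : Set ((Fin r → Fin (D + 1)) × (Fin r → Fin (D + 1))),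
    D * ∑ j, rep D P j ≤ B := by
  classical
  refine ⟨∑ P : Set ((Fin r → Fin (D + 1)) × (Fin r → Fin (D + 1))), D * ∑ j, rep D P j,
    fun P => ?_⟩
  exact Finset.single_le_sum (f := fun P => D * ∑ j, rep D P j) (fun _ _ => Nat.zero_le _)
    (Finset.mem_univ P)

/-- **Strata of general hypersurfaces contain no nonconstant curves with `r` terms.** -/
theorem gen_sparse_of (d : Fin q → ℕ) (Z : Finset (Fin q)) (hZ : NoGm N d Z) (r : ℕ) : ∃ h : MvPolynomial (CI N d) ℤ, h ≠ 0 ∧ ∀ (L : Type) [Field L]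
      (F : Fin q → MvPolynomial (Fin (N + 1)) L), (∀ i, (F i).IsHomogeneous (d i)) →
      sp d F h ≠ 0 → ∀ (c : Fin r → Fin (N + 1) → L) (l : Fin r → ℕ),
      (∀ i ∈ Z, aeval (cur c l) (F i) = 0) →
      (∀ i, i ∉ Z → ∃ v, (aeval (cur c l) (F i)).coeff v ≠ 0 ∧
        ∀ t, t ≠ v → (aeval (cur c l) (F i)).coeff t = 0) →
      ∀ i1 i2, cur c l i1 * Polynomial.C (∑ j, c j i2) =
        cur c l i2 * Polynomial.C (∑ j, c j i1) := by
  classical
  set D : ℕ := ∑ i, d i + 1 with hD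
  have hdD : ∀ i, d i ≤ D := fun i =>
    (Finset.single_le_sum (f := d) (fun _ _ => Nat.zero_le _) (Finset.mem_univ i)).trans
      (Nat.le_succ _)
  obtain ⟨B, hB⟩ := pat_rep_bound (r := r) D
  choose H hH0 hH using fun (p : Set ((Fin r → Fin (D + 1)) × (Fin r → Fin (D + 1))) ×
    (Fin q → Fin (B + 1)) × Fin (N + 1) × Fin (N + 1) × Fin r) =>
    aux_of (r := r) d Z hZ (rep D p.1) (fun i => (p.2.1 i : ℕ)) p.2.2.1 p.2.2.2.1
      (rep D p.1 p.2.2.2.2)
  refine ⟨∏ p, H p, Finset.prod_ne_zero_iff.2 fun p _ => hH0 p, ?_⟩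
  intro L _ F hF hsp c l hZ0 hC0 i1 i2
  rw [map_prod, Finset.prod_ne_zero_iff] at hsp
  by_contra hne
  set l' := rep D (pat D l) with hl'
  have hpat : pat D l = pat D l' := (pat_rep D l).symm
  have hZ1 : ∀ i ∈ Z, aeval (cur c l') (F i) = 0 := fun i hi =>
    cur_zero_transfer D l l' hpat c (F i) (d i) (hdD i) (hF i) (hZ0 i hi)
  have hC1 : ∀ i, ∃ v' : Fin (B + 1), i ∉ Z → (aeval (cur c l') (F i)).coeff (v' : ℕ) ≠ 0 ∧
      ∀ t, t ≠ (v' : ℕ) → (aeval (cur c l') (F i)).coeff t = 0 := by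
    intro i
    by_cases hi : i ∈ Z
    · exact ⟨0, fun h => absurd hi h⟩
    · obtain ⟨v, hv, hv0⟩ := hC0 i hi
      obtain ⟨v', hv', h1, h2⟩ := cur_mono_transfer D l l' hpat c (F i) (d i) (hdD i) (hF i) v hv
        hv0
      exact ⟨⟨v', Nat.lt_succ_of_le (hv'.trans (hB _))⟩, fun _ => ⟨h1, h2⟩⟩
  choose v' hv' using hC1
  have hne' : cur c l' i1 * Polynomial.C (∑ j, c j i2) ≠
      cur c l' i2 * Polynomial.C (∑ j, c j i1) := fun h0 =>
    hne (cur_const_transfer D (by omega) l' l hpat.symm c i1 i2 _ _ h0)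
  obtain ⟨j, hj⟩ := exists_exponent c l' i1 i2 _ _ hne'
  exact hj (hH (pat D l, v', i1, i2, j) L F hF (hsp _ (Finset.mem_univ _)) c hZ1 hv')

/-- **Strata of general hypersurfaces contain no nonconstant curves with `r` terms.** -/
theorem gen_sparse (d : Fin q → ℕ) (Z : Finset (Fin q)) (hZ : 2 * N + 1 ≤ ∑ i, d i + Z.card)
    (r : ℕ) : ∃ h : MvPolynomial (CI N d) ℤ, h ≠ 0 ∧ ∀ (L : Type) [Field L]
      (F : Fin q → MvPolynomial (Fin (N + 1)) L), (∀ i, (F i).IsHomogeneous (d i)) →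
      sp d F h ≠ 0 → ∀ (c : Fin r → Fin (N + 1) → L) (l : Fin r → ℕ),
      (∀ i ∈ Z, aeval (cur c l) (F i) = 0) →
      (∀ i, i ∉ Z → ∃ v, (aeval (cur c l) (F i)).coeff v ≠ 0 ∧
        ∀ t, t ≠ v → (aeval (cur c l) (F i)).coeff t = 0) →
      ∀ i1 i2, cur c l i1 * Polynomial.C (∑ j, c j i2) =
        cur c l i2 * Polynomial.C (∑ j, c j i1) :=
  gen_sparse_of d Z (noGm N d Z hZ) r

end Pool.Agent.Q51.HG
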