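import Mathlib
import Pool.Agent.Q51.HG.All
import Pool.Agent.Q34.RP.Eqv

set_option autoImplicit false

/-!
# Cyclotomic and radical points of varieties without curves with `r` terms
-/

namespace Pool.Agent.Q51.HG

open Finset Pool.Agent.H533R3.SL Pool.Agent.Q34.CL Pool.Agent.Q34.RD
open Pool.Agent.Q34.RT (CycHouseQ exists_lengthQ)
open Pool.Agent.Helper259.AbsHt
open Pool.Agent.TH182.VD (CI)

variable {n r q : ℕ} {K : Type} [Field K] {ι : Type}

/-- All curves with `r` terms in `X = {F = 0}` over `Ω` are constant. -/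
def NoCur (r : ℕ) (F : ι → MvPolynomial (Fin (n + 1)) K) (Ω : Type) [Field Ω] [Algebra K Ω] :
    Prop :=
  ∀ (c : Fin r → Fin (n + 1) → Ω) (l : Fin r → ℕ), (∀ i, MvPolynomial.aeval (cur c l) (F i) = 0) →
    ∀ i1 i2, cur c l i1 * Polynomial.C (∑ j, c j i2) = cur c l i2 * Polynomial.C (∑ j, c j i1)

theorem sp_map {L Ω : Type} [CommRing L] [CommRing Ω] (φ : L →+* Ω) (d : Fin q → ℕ)
    (F : Fin q → MvPolynomial (Fin (n + 1)) L) (h : MvPolynomial (CI n d) ℤ) :
    sp d (fun i => MvPolynomial.map φ (F i)) h = φ (sp d F h) := by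
  unfold sp
  simp only [MvPolynomial.coeff_map]
  have h1 := MvPolynomial.map_aeval (fun x : CI n d => MvPolynomial.coeff x.2.1 (F x.1)) φ h
  rw [h1, MvPolynomial.aeval_def, MvPolynomial.coe_eval₂Hom]
  congr 1
  exact Subsingleton.elim _ _

/-- the curves over larger fields -/
theorem gen_noCur (d : Fin q → ℕ) (hd : NoGm n d Finset.univ) (r : ℕ) :
    ∃ h : MvPolynomial (CI n d) ℤ, h ≠ 0 ∧ ∀ (K : Type) [Field K]
      (F : Fin q → MvPolynomial (Fin (n + 1)) K), (∀ i, (F i).IsHomogeneous (d i)) →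
      sp d F h ≠ 0 → ∀ (Ω : Type) [Field Ω] [Algebra K Ω], NoCur r F Ω := by
  obtain ⟨h, hh0, hh⟩ := gen_sparse_of d Finset.univ hd r
  refine ⟨h, hh0, fun K _ F hF hsp Ω _ _ c l hc => ?_⟩
  refine hh Ω (fun i => MvPolynomial.map (algebraMap K Ω) (F i)) (fun i => (hF i).map _) ?_ c l
    (fun i _ => ?_) (fun i hi => absurd (Finset.mem_univ i) hi)
  · rw [sp_map]
    exact (map_ne_zero _).2 hsp
  · rw [MvPolynomial.aeval_map_algebraMap]
    exact hc i

variable (F : ι → MvPolynomial (Fin (n + 1)) K) (d : ℕ) (hd : 1 ≤ d)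
  (hF : ∀ i, ∃ e ≤ d, (F i).IsHomogeneous e)
  {L : Type} [Field L] [NumberField L] [Algebra K L] [Algebra K Qbar] [Algebra L Qbar]
  [IsScalarTower K L Qbar]

include hd hF in
theorem orders (h : NoCur r F Qbar)
    (V : Fin r → Fin (n + 1) → L) (u : Fin r → Qbar)
    (hu : ∀ j, u j = 0 ∨ ∃ m : ℕ, 0 < m ∧ u j ^ m = 1) (hx0 : lin u V ≠ 0)
    (hx : ∀ i, MvPolynomial.aeval (lin u V) (F i) = 0) :
    ∃ m, 0 < m ∧ m ≤ (9 * r * d * Module.finrank ℚ L) ^ (2 * r) ∧
        ∃ (w : Fin r → Qbar) (c : Qbar), (∀ j, w j = 0 ∨ w j ^ m = 1) ∧ c ≠ 0 ∧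
          ∀ i, lin w V i = c * lin u V i := by
  have hFF : ∀ P ∈ Set.range F, ∃ e, e ≤ d ∧ P.IsHomogeneous e := by
    rintro _ ⟨i, rfl⟩
    exact hF i
  refine Pool.Agent.Q34.CL.bounded_order (L := Qbar) (Set.range F) d hd hFF 1
    ⟨0, MvPolynomial.isHomogeneous_one _ _⟩
    (fun c l h1 h2 => ?_) (Module.finrank ℚ L)
    (cycDegree_numberField L Qbar _ le_rfl) V u hu ⟨hx0, by
      rintro _ ⟨i, rfl⟩
      exact hx i, by rw [map_one]; exact one_ne_zero⟩
  obtain ⟨i, i', hi⟩ := h2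
  exact absurd (h c l (fun i => h1 _ ⟨i, rfl⟩) i i') hi

include hd hF in
theorem exponents (h : NoCur r F Qbar)
    (V : Fin r → Fin (n + 1) → L) (u : Fin r → Qbar)
    (hu : ∀ j, ∃ N : ℕ, 0 < N ∧ ∃ a : L, algebraMap L Qbar a = u j ^ N) (hx0 : lin u V ≠ 0)
    (hx : ∀ i, MvPolynomial.aeval (lin u V) (F i) = 0) :
    ∃ B, 0 < B ∧ B ≤ radBound r d (Module.finrank ℚ L) ∧
        ∃ (w : Fin r → Qbar) (c : Qbar), (∀ j, ∃ a : L, algebraMap L Qbar a = w j ^ B) ∧ c ≠ 0 ∧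
          ∀ i, lin w V i = c * lin u V i := by
  have halgQ : Algebra.IsAlgebraic ℚ Qbar := AlgebraicClosure.isAlgebraic ℚ
  have halg : Algebra.IsAlgebraic L Qbar := Algebra.IsAlgebraic.tower_top (K := ℚ) L
  have hFF : ∀ P ∈ Set.range F, ∃ e, e ≤ d ∧ P.IsHomogeneous e := by
    rintro _ ⟨i, rfl⟩
    exact hF i
  refine Pool.Agent.Q34.RD.bounded_radical (Set.range F) d hd hFF 1
    ⟨0, MvPolynomial.isHomogeneous_one _ _⟩
    (fun c l h1 h2 => ?_) (Module.finrank ℚ L)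
    (cycDegree_numberField L Qbar _ le_rfl) V u hu ⟨hx0, by
      rintro _ ⟨i, rfl⟩
      exact hx i, by rw [map_one]; exact one_ne_zero⟩
  obtain ⟨i, i', hi⟩ := h2
  exact absurd (h c l (fun i => h1 _ ⟨i, rfl⟩) i i') hi

include hd hF in
theorem northcott (h : NoCur r F Qbar) (H : ℝ) :
    {P : Projectivization Qbar (Fin (n + 1) → Qbar) |
      ∃ (V : Fin r → Fin (n + 1) → L) (u : Fin r → Qbar) (h : lin u V ≠ 0),
        (∀ j, ∃ N : ℕ, 0 < N ∧ ∃ a : L, algebraMap L Qbar a = u j ^ N) ∧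
        P = Projectivization.mk Qbar (lin u V) h ∧
        (∀ i, MvPolynomial.aeval (lin u V) (F i) = 0) ∧
        absLogHeight (lin u V) ≤ H}.Finite := by
  classical
  have h1 : {P ∈ radPts L (Ω := Qbar) (Set.range F) 1 r | absLogHeight P.rep ≤ H}.Finite := by
    refine northcott_radPts (Set.range F) 1 (radBound r d (Module.finrank ℚ L) ^ r)
      (fun u V hu hon => ?_) H
    obtain ⟨B, hB0, hB, w, c, hw, hc, hwc⟩ := exponents F d hd hF h V u hu
      hon.1 (fun i => hon.2.1 _ ⟨i, rfl⟩)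
    obtain ⟨K', h1, h2, h3⟩ := degree_of_radical B hB0 w hw V
    refine ⟨K', h1, h2.trans (Nat.pow_le_pow_left hB r), c, hc, fun i => ?_⟩
    rw [← hwc]
    exact h3 i
  refine h1.subset ?_
  rintro P ⟨V, u, h0, hu, rfl, hxF, hH⟩
  refine ⟨⟨u, V, hu, h0, rfl, h0, ?_, by rw [map_one]; exact one_ne_zero⟩, ?_⟩
  · rintro _ ⟨i, rfl⟩
    exact hxF i
  · rw [rep_height]
    exact hH

include hd hF in
/-- finitely many cyclotomic points -/
theorem cyc_finite (g Λ : ℕ) (B : ℝ) (hΛ : ∀ α : Qbar, CycHouseQ B α →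
      ∃ v : Fin Λ → Qbar, (∀ j, v j = 0 ∨ ∃ m : ℕ, 0 < m ∧ v j ^ m = 1) ∧ ∑ j, v j = α)
    (h : NoCur ((n + 1) * (g * Λ)) F Qbar) (e : Fin g → L) :
    {P : Projectivization Qbar (Fin (n + 1) → Qbar) | ∃ (x : Fin (n + 1) → Qbar) (h : x ≠ 0),
      P = Projectivization.mk Qbar x h ∧ (∀ i, MvPolynomial.aeval x (F i) = 0) ∧
      ∀ a, ∃ β : Fin g → Qbar, (∀ i, CycHouseQ B (β i)) ∧
        x a = ∑ i, algebraMap L Qbar (e i) * β i}.Finite := by
  classical
  let I := Fin (n + 1) × Fin g × Fin Λ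
  have hI : Fintype.card I = (n + 1) * (g * Λ) := by
    simp [I]
  let eq : I ≃ Fin ((n + 1) * (g * Λ)) := Fintype.equivFinOfCardEq hI
  set r := (n + 1) * (g * Λ) with hr
  let V : Fin r → Fin (n + 1) → L := fun j b =>
    if (eq.symm j).1 = b then e (eq.symm j).2.1 else 0
  set M := (9 * r * d * Module.finrank ℚ L) ^ (2 * r) with hM
  have hfin : ({w : Fin r → Qbar | ∃ m, 0 < m ∧ m ≤ M ∧ ∀ j, w j = 0 ∨ w j ^ m = 1}).Finite := by
    let W : Finset (Fin r → Qbar) := (Finset.Icc 1 M).biUnion fun m =>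
      Fintype.piFinset fun _ => insert 0 (Polynomial.nthRootsFinset m (1 : Qbar))
    refine W.finite_toSet.subset ?_
    rintro w ⟨m, hm, hmM, hw⟩
    rw [Finset.mem_coe, Finset.mem_biUnion]
    refine ⟨m, Finset.mem_Icc.2 ⟨hm, hmM⟩, ?_⟩
    rw [Fintype.mem_piFinset]
    intro j
    rw [Finset.mem_insert, Polynomial.mem_nthRootsFinset hm]
    exact hw j
  let pt : (Fin r → Qbar) → Projectivization Qbar (Fin (n + 1) → Qbar) := fun w =>
    if h : lin w V ≠ 0 then Projectivization.mk Qbar _ h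
    else Projectivization.mk Qbar (fun _ => 1) (fun h => one_ne_zero (congrFun h 0))
  refine (hfin.image pt).subset ?_
  rintro P ⟨x, hx0, rfl, hx, hβ⟩
  choose β hβ1 hβ2 using hβ
  choose v hv hvs using fun a i => hΛ (β a i) (hβ1 a i)
  let u : Fin r → Qbar := fun j => v (eq.symm j).1 (eq.symm j).2.1 (eq.symm j).2.2
  have hxu : lin u V = x := by
    funext b
    unfold lin
    rw [← Equiv.sum_comp eq]
    have h1 : ∀ p : I, u (eq p) * algebraMap L Qbar (V (eq p) b) =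
        if p.1 = b then v p.1 p.2.1 p.2.2 * algebraMap L Qbar (e p.2.1) else 0 := by
      intro p
      simp only [u, V, Equiv.symm_apply_apply]
      split_ifs with h
      · rfl
      · rw [map_zero, mul_zero]
    rw [Finset.sum_congr rfl fun p _ => h1 p, Fintype.sum_prod_type, Finset.sum_eq_single b]
    · simp only [if_true]
      rw [Fintype.sum_prod_type, hβ2]
      refine Finset.sum_congr rfl fun i _ => ?_
      rw [← hvs b i, Finset.mul_sum]
      exact Finset.sum_congr rfl fun l _ => mul_comm _ _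
    · intro a _ hab
      refine Finset.sum_eq_zero fun p _ => ?_
      rw [if_neg hab]
    · intro h2
      exact absurd (Finset.mem_univ b) h2
  obtain ⟨m, hm, hmle, w, c, hw, hc, hws⟩ := orders (L := L) F d hd hF h V u (fun j => hv _ _ _)
    (by rw [hxu]; exact hx0) (by rw [hxu]; exact hx)
  refine ⟨w, ⟨m, hm, hmle, hw⟩, ?_⟩
  have hwx : lin w V = c • x := by
    funext b
    rw [hws, hxu]
    rfl
  have hw0 : lin w V ≠ 0 := by
    rw [hwx]
    exact smul_ne_zero hc hx0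
  simp only [pt, dif_pos hw0]
  rw [Projectivization.mk_eq_mk_iff']
  exact ⟨c, hwx.symm⟩

end Pool.Agent.Q51.HG
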