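import Mathlib
import Pool.Agent.Q51.HG.Arith
import Pool.Agent.Y215.AF.LogHull

set_option autoImplicit false

/-!
# The complement of general hypersurfaces in general complete intersections, as an affine variety
-/

namespace Pool.Agent.Q51.HG

open Finset MvPolynomial Pool.Agent.H533R3.SL Pool.Agent.W235.RM Pool.Agent.Y215.AF
open Pool.Agent.Helper259.AbsHt Pool.Agent.Y215.SK
open Pool.Agent.TH182.VD (CI)

variable {n q r : ℕ} {k : Type} [Field k]

/-- All curves with `r` terms in the stratum `F i = 0` (`i ∈ Z`), `F i ≠ 0` (`i ∉ Z`) over the fields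
`L ⊇ k` are constant. -/
def NoCurP (r : ℕ) (Z : Finset (Fin q)) (F : Fin q → MvPolynomial (Fin (n + 1)) k) : Prop :=
  ∀ (L : Type) [Field L] [Algebra k L] (c : Fin r → Fin (n + 1) → L) (l : Fin r → ℕ),
    (∀ i ∈ Z, aeval (cur c l) (F i) = 0) →
    (∀ i, i ∉ Z → ∃ v, (aeval (cur c l) (F i)).coeff v ≠ 0 ∧
      ∀ t, t ≠ v → (aeval (cur c l) (F i)).coeff t = 0) →
    ∀ i1 i2, cur c l i1 * Polynomial.C (∑ j, c j i2) = cur c l i2 * Polynomial.C (∑ j, c j i1)

theorem gen_noCurP (d : Fin q → ℕ) (Z : Finset (Fin q)) (hd : NoGm n d Z) (r : ℕ) :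
    ∃ h : MvPolynomial (CI n d) ℤ, h ≠ 0 ∧ ∀ (K : Type) [Field K]
      (F : Fin q → MvPolynomial (Fin (n + 1)) K), (∀ i, (F i).IsHomogeneous (d i)) →
      sp d F h ≠ 0 → NoCurP r Z F := by
  obtain ⟨h, hh0, hh⟩ := gen_sparse_of d Z hd r
  refine ⟨h, hh0, fun K _ F hF hsp L _ _ c l h1 h2 => ?_⟩
  refine hh L (fun i => MvPolynomial.map (algebraMap K L) (F i)) (fun i => (hF i).map _) ?_ c l
    (fun i hi => ?_) (fun i hi => ?_)
  · rw [sp_map]
    exact (map_ne_zero _).2 hsp
  · rw [MvPolynomial.aeval_map_algebraMap]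
    exact h1 i hi
  · rw [MvPolynomial.aeval_map_algebraMap]
    exact h2 i hi

/-- the equations -/
noncomputable def pairE (Z : Finset (Fin q)) (b0 : Fin q)
    (F : Fin q → MvPolynomial (Fin (n + 1)) k) : Fin (q + q) → MvPolynomial (Fin ((n + 1) + q)) k :=
  Fin.append
    (fun i => if i ∈ Z then rename (Fin.castAdd q) (F i) else
      if i = b0 then rename (Fin.castAdd q) (F i) - 1 else
        rename (Fin.castAdd q) (F i) * X (Fin.natAdd (n + 1) i) - 1)
    (fun i => if i ∈ Z ∨ i = b0 then X (Fin.natAdd (n + 1) i) else 0)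

/-- the points -/
theorem pairE_iff (Z : Finset (Fin q)) (b0 : Fin q) (hb : b0 ∉ Z)
    (F : Fin q → MvPolynomial (Fin (n + 1)) k) {L : Type} [Field L] [Algebra k L]
    (z : Fin ((n + 1) + q) → L) :
    (∀ i, aeval z (pairE Z b0 F i) = 0) ↔
      (∀ i ∈ Z, aeval (fun a => z (Fin.castAdd q a)) (F i) = 0) ∧
      aeval (fun a => z (Fin.castAdd q a)) (F b0) = 1 ∧
      (∀ i, i ∉ Z → i ≠ b0 →
        aeval (fun a => z (Fin.castAdd q a)) (F i) * z (Fin.natAdd (n + 1) i) = 1) ∧
      ∀ i, i ∈ Z ∨ i = b0 → z (Fin.natAdd (n + 1) i) = 0 := by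
  have hren : ∀ i, aeval z (rename (Fin.castAdd q) (F i)) =
      aeval (fun a => z (Fin.castAdd q a)) (F i) := by
    intro i
    rw [aeval_rename]
    rfl
  unfold pairE
  constructor
  · intro h
    have h1 : ∀ i : Fin q, _ := fun i => h (Fin.castAdd q i)
    have h2 : ∀ i : Fin q, _ := fun i => h (Fin.natAdd q i)
    simp only [Fin.append_left] at h1
    simp only [Fin.append_right] at h2
    refine ⟨fun i hi => ?_, ?_, fun i hi hib => ?_, fun i hi => ?_⟩
    · have h3 := h1 i
      rw [if_pos hi, hren] at h3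
      exact h3
    · have h3 := h1 b0
      rw [if_neg hb, if_pos rfl, map_sub, hren, map_one] at h3
      exact sub_eq_zero.1 h3
    · have h3 := h1 i
      rw [if_neg hi, if_neg hib, map_sub, map_mul, hren, map_one, aeval_X] at h3
      exact sub_eq_zero.1 h3
    · have h3 := h2 i
      rw [if_pos hi, aeval_X] at h3
      exact h3
  · rintro ⟨h1, h2, h3, h4⟩ i
    refine Fin.addCases (fun i => ?_) (fun i => ?_) i
    · rw [Fin.append_left]
      split_ifs with hi hib
      · rw [hren, h1 i hi]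
      · rw [map_sub, hren, map_one, hib, h2, sub_self]
      · rw [map_sub, map_mul, hren, map_one, aeval_X, h3 i hi hib, sub_self]
    · rw [Fin.append_right]
      split_ifs with hi
      · rw [aeval_X, h4 i hi]
      · rw [map_zero]

theorem pairE_deg (Z : Finset (Fin q)) (b0 : Fin q) (d : Fin q → ℕ)
    (F : Fin q → MvPolynomial (Fin (n + 1)) k) (hF : ∀ i, (F i).IsHomogeneous (d i)) (i) :
    (pairE Z b0 F i).totalDegree ≤ ∑ i, d i + 1 := by
  have hdD : ∀ i, d i ≤ ∑ i, d i := fun i =>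
    Finset.single_le_sum (f := d) (fun _ _ => Nat.zero_le _) (Finset.mem_univ i)
  have h1 : ∀ i, (rename (Fin.castAdd q) (F i)).totalDegree ≤ d i := fun i =>
    ((hF i).rename_isHomogeneous (f := Fin.castAdd q)).totalDegree_le
  unfold pairE
  refine Fin.addCases (fun i => ?_) (fun i => ?_) i
  · rw [Fin.append_left]
    have h2 := h1 i
    have h3 := hdD i
    split_ifs with hi hib
    · omega
    · refine (totalDegree_sub _ _).trans (max_le (by omega) ?_)
      rw [totalDegree_one]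
      omega
    · refine (totalDegree_sub _ _).trans (max_le ?_ ?_)
      · refine (totalDegree_mul _ _).trans ?_
        rw [totalDegree_X]
        omega
      · rw [totalDegree_one]
        omega
  · rw [Fin.append_right]
    split_ifs with hi
    · rw [totalDegree_X]
      omega
    · rw [totalDegree_zero]
      omega

/-- factors of powers of the variable -/
theorem mono_of_mul {L : Type} [Field L] {A B : Polynomial L} {M : ℕ}
    (h : A * B = Polynomial.X ^ M) : ∃ v, A.coeff v ≠ 0 ∧ ∀ t, t ≠ v → A.coeff t = 0 := by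
  have h1 : A ∣ Polynomial.X ^ M := ⟨B, h.symm⟩
  obtain ⟨v, -, hv⟩ := (dvd_prime_pow Polynomial.prime_X M).1 h1
  obtain ⟨u, hu⟩ := hv.symm
  obtain ⟨a, ha, hau⟩ := Polynomial.isUnit_iff.1 u.isUnit
  rw [← hau] at hu
  refine ⟨v, ?_, fun t ht => ?_⟩
  · rw [← hu, Polynomial.coeff_X_pow_mul', if_pos le_rfl, Nat.sub_self, Polynomial.coeff_C_zero]
    exact ha.ne_zero
  · rw [← hu, mul_comm, Polynomial.coeff_C_mul_X_pow, if_neg ht]

/-- a polynomial with a power which is a monomial -/
theorem pow_mono {L : Type} [Field L] {P : Polynomial L} {d M : ℕ} {a : L} (hd : 0 < d)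
    (ha : a ≠ 0) (h : P ^ d = Polynomial.C a * Polynomial.X ^ (M * d)) :
    ∃ e : L, P = Polynomial.C e * Polynomial.X ^ M := by
  have h1 : P ∣ Polynomial.X ^ (M * d) := by
    have h2 : P ∣ P ^ d := dvd_pow_self P hd.ne'
    rw [h] at h2
    exact (Polynomial.isUnit_C.2 (IsUnit.mk0 a ha)).dvd_mul_left.1 h2
  obtain ⟨v, -, hv⟩ := (dvd_prime_pow Polynomial.prime_X (M * d)).1 h1
  obtain ⟨u, hu⟩ := hv.symm
  obtain ⟨e, he, heu⟩ := Polynomial.isUnit_iff.1 u.isUnit
  rw [← heu, mul_comm] at hu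
  have h3 := congrArg Polynomial.natDegree h
  have he0 : e ≠ 0 := he.ne_zero
  rw [← hu, mul_pow, ← map_pow, ← pow_mul, Polynomial.natDegree_C_mul_X_pow _ _ (pow_ne_zero _ he0),
    Polynomial.natDegree_C_mul_X_pow _ _ ha] at h3
  have h4 : v = M := Nat.eq_of_mul_eq_mul_right hd h3
  exact ⟨e, by rw [← hu, h4]⟩

theorem eq_of_eval {L : Type} [Field L] [Infinite L] {A B : Polynomial L}
    (h : ∀ t : L, t ≠ 0 → A.eval t = B.eval t) : A = B := by
  refine Polynomial.eq_of_infinite_eval_eq _ _ ?_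
  exact ((Set.finite_singleton (0 : L)).infinite_compl).mono fun t ht => h t ht

/-- **The affine variety has no curves with few terms.** -/
theorem pair_curCond [CharZero k] (Z : Finset (Fin q)) (b0 : Fin q) (hb : b0 ∉ Z) (d : Fin q → ℕ)
    (hd0 : 0 < d b0) (F : Fin q → MvPolynomial (Fin (n + 1)) k)
    (hF : ∀ i, (F i).IsHomogeneous (d i)) (r : ℕ) (hno : NoCurP r Z F) :
    CurCond (pairE Z b0 F) (∑ i, d i + 1) 1 r := by
  classical
  intro L _ _ c l hz hne
  exfalso
  have hL : CharZero L := charZero_of_injective_algebraMap (algebraMap k L).injective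
  have hinf : Infinite L := inferInstance
  obtain ⟨i, i', hii⟩ := hne
  obtain ⟨m, hm⟩ := lc_nonconst c l i i' hii
  apply hm
  have h0 : ∀ t : L, t ≠ 0 → ∀ i, aeval (lc c l t) (pairE Z b0 F i) = 0 := fun t ht i =>
    lc_zero (∑ i, d i + 1) _ (pairE_deg Z b0 d F hF i) c l (hz i) t ht
  have h1 := fun t ht => (pairE_iff Z b0 hb F (lc c l t)).1 (h0 t ht)
  set cx : Fin r → Fin (n + 1) → L := fun j a => c j (Fin.castAdd q a) with hcx
  set l' : Fin r → ℕ := fun j => l j.succ with hl'
  have hev : ∀ t : L, t ≠ 0 → ∀ a, (cur cx l' a).eval t = t ^ (l 0) * lc c l t (Fin.castAdd q a) := by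
    intro t ht a
    unfold lc
    rw [mul_div_cancel₀ _ (pow_ne_zero _ ht)]
    unfold cur
    rw [Polynomial.eval_finsetSum]
    exact Finset.sum_congr rfl fun j _ => by simp [hcx, hl']
  have hFev : ∀ t : L, t ≠ 0 → ∀ i, (aeval (cur cx l') (F i)).eval t =
      (t ^ (l 0)) ^ d i * aeval (fun a => lc c l t (Fin.castAdd q a)) (F i) := by
    intro t ht i
    rw [aeval_eval, ← aeval_hom_smul (F i) (hF i)]
    congr 2
    funext a
    exact hev t ht a
  have hone : (1 : L) ≠ 0 := one_ne_zero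
  have hZ0 : ∀ i ∈ Z, aeval (cur cx l') (F i) = 0 := by
    intro i hi
    refine eq_of_eval fun t ht => ?_
    rw [hFev t ht, (h1 t ht).1 i hi, mul_zero, Polynomial.eval_zero]
  have hmono : ∀ i, i ∉ Z → ∃ v, (aeval (cur cx l') (F i)).coeff v ≠ 0 ∧
      ∀ t, t ≠ v → (aeval (cur cx l') (F i)).coeff t = 0 := by
    intro i hi
    by_cases hib : i = b0
    · refine mono_of_mul (B := 1) (M := l 0 * d i) (eq_of_eval fun t ht => ?_)
      rw [Polynomial.eval_mul, hFev t ht, hib, (h1 t ht).2.1]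
      simp [pow_mul]
    · refine mono_of_mul (B := ∑ j : Fin r, Polynomial.C (c j (Fin.natAdd (n + 1) i)) *
        Polynomial.X ^ (l j.succ)) (M := l 0 * d i + l 0) (eq_of_eval fun t ht => ?_)
      have h2 : (∑ j : Fin r, Polynomial.C (c j (Fin.natAdd (n + 1) i)) *
        Polynomial.X ^ (l j.succ)).eval t = t ^ (l 0) * lc c l t (Fin.natAdd (n + 1) i) := by
        unfold lc
        rw [mul_div_cancel₀ _ (pow_ne_zero _ ht), Polynomial.eval_finsetSum]
        exact Finset.sum_congr rfl fun j _ => by simp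
      rw [Polynomial.eval_mul, hFev t ht, h2, Polynomial.eval_pow, Polynomial.eval_X, pow_add,
        pow_mul]
      have h3 := (h1 t ht).2.2.1 i hi hib
      linear_combination ((t ^ (l 0)) ^ d i * t ^ (l 0)) * h3
  have hrig := hno L cx l' hZ0 hmono
  have hx1 : ∀ a, ∑ j, cx j a = lc c l 1 (Fin.castAdd q a) := by
    intro a
    rw [lc_one]
  have hprop : ∀ t : L, t ≠ 0 → ∀ a b, lc c l t (Fin.castAdd q a) * lc c l 1 (Fin.castAdd q b) =
      lc c l t (Fin.castAdd q b) * lc c l 1 (Fin.castAdd q a) := by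
    intro t ht a b
    have h2 := congrArg (Polynomial.eval t) (hrig a b)
    rw [Polynomial.eval_mul, Polynomial.eval_mul, Polynomial.eval_C, Polynomial.eval_C,
      hev t ht, hev t ht, hx1, hx1] at h2
    have h3 : t ^ (l 0) ≠ 0 := pow_ne_zero _ ht
    apply mul_left_cancel₀ h3
    linear_combination h2
  obtain ⟨b, hb1⟩ : ∃ b, lc c l 1 (Fin.castAdd q b) ≠ 0 := by
    by_contra hcon
    push Not at hcon
    have h2 := (h1 1 hone).2.1
    have h3 : (fun a => lc c l 1 (Fin.castAdd q a)) = fun a => 0 * (0 : Fin (n + 1) → L) a := by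
      funext a
      rw [hcon a, zero_mul]
    rw [h3, aeval_hom_smul (F b0) (hF b0), zero_pow hd0.ne', zero_mul] at h2
    exact zero_ne_one h2
  have hlam : ∀ t : L, t ≠ 0 → (lc c l t (Fin.castAdd q b) / lc c l 1 (Fin.castAdd q b)) ^ d b0 =
      1 := by
    intro t ht
    have h2 := (h1 t ht).2.1
    have h3 : (fun a => lc c l t (Fin.castAdd q a)) = fun a =>
        (lc c l t (Fin.castAdd q b) / lc c l 1 (Fin.castAdd q b)) *
          lc c l 1 (Fin.castAdd q a) := by
      funext a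
      rw [div_mul_eq_mul_div, eq_div_iff hb1]
      exact hprop t ht a b
    rw [h3, aeval_hom_smul (F b0) (hF b0), (h1 1 hone).2.1, mul_one] at h2
    exact h2
  obtain ⟨e, he⟩ : ∃ e : L, cur cx l' b = Polynomial.C e * Polynomial.X ^ (l 0) := by
    refine pow_mono (a := (lc c l 1 (Fin.castAdd q b)) ^ d b0) hd0 (pow_ne_zero _ hb1)
      (eq_of_eval fun t ht => ?_)
    have h2 := hlam t ht
    rw [div_pow, div_eq_one_iff_eq (pow_ne_zero _ hb1)] at h2
    rw [Polynomial.eval_pow, hev t ht, mul_pow, h2]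
    simp [pow_mul]
    ring
  have hconst : ∀ t : L, t ≠ 0 → lc c l t (Fin.castAdd q b) = lc c l 1 (Fin.castAdd q b) := by
    have h2 : ∀ t : L, t ≠ 0 → lc c l t (Fin.castAdd q b) = e := by
      intro t ht
      have h3 := hev t ht b
      rw [he] at h3
      simp only [Polynomial.eval_mul, Polynomial.eval_C, Polynomial.eval_pow,
        Polynomial.eval_X] at h3
      have h4 : t ^ (l 0) ≠ 0 := pow_ne_zero _ ht
      apply mul_left_cancel₀ h4
      linear_combination -h3
    intro t ht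
    rw [h2 t ht, h2 1 hone]
  have ht0 : ((2 : L) ^ m) ≠ 0 := pow_ne_zero _ two_ne_zero
  have hxeq : ∀ a, lc c l (2 ^ m) (Fin.castAdd q a) = lc c l 1 (Fin.castAdd q a) := by
    intro a
    have h2 := hprop _ ht0 a b
    rw [hconst _ ht0] at h2
    apply mul_right_cancel₀ hb1
    linear_combination h2
  have hfun : (fun a => lc c l (2 ^ m) (Fin.castAdd q a)) =
      fun a => lc c l 1 (Fin.castAdd q a) := funext hxeq
  funext a
  refine Fin.addCases (fun a => hxeq a) (fun i => ?_) a
  by_cases hi : i ∈ Z ∨ i = b0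
  · rw [(h1 _ ht0).2.2.2 i hi, (h1 1 hone).2.2.2 i hi]
  · push Not at hi
    have h2 := (h1 _ ht0).2.2.1 i hi.1 hi.2
    have h3 := (h1 1 hone).2.2.1 i hi.1 hi.2
    rw [hfun] at h2
    have h4 : aeval (fun a => lc c l 1 (Fin.castAdd q a)) (F i) ≠ 0 := by
      intro h5
      rw [h5, zero_mul] at h3
      exact zero_ne_one h3
    apply mul_left_cancel₀ h4
    rw [h2, h3]

end Pool.Agent.Q51.HG
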