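import Mathlib
import Pool.Agent.Q51.HG.Pairs

set_option autoImplicit false

/-!
# Points given by sums of `r` elements of groups of finite rank on general pairs
-/

namespace Pool.Agent.Q51.HG

open Finset IsDedekindDomain NumberField
open MvPolynomial hiding psum
open Pool.Agent.H533R3.SL Pool.Agent.W235.RM Pool.Agent.Y215.AF
open Pool.Agent.Helper259.AbsHt Pool.Agent.Y215.SK
open Pool.Agent.Y215.SP (epsn)

variable {n q r : ℕ} {k : Type} [Field k]

section Proj

variable [Algebra k Qbar] (F : Fin q → MvPolynomial (Fin (n + 1)) k) {d : Fin q → ℕ}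
  (hF : ∀ i, (F i).IsHomogeneous (d i)) (Γ : Subgroup Qbarˣ) (hΓ : Γ.FG)

include hF hΓ in
/-- The height inequality on projective varieties without curves with `r` terms. -/
theorem proj_heights (hno : NoCurP r Finset.univ F) :
    ∃ C : ℝ, ∀ (u : Fin r → Qbarˣ) (V : Fin r → Fin (n + 1) → Qbar), (∀ j, u j ∈ DivHull Γ) →
      psum Finset.univ u V ≠ 0 → (∀ i, aeval (psum Finset.univ u V) (F i) = 0) →
      absLogHeight (psum Finset.univ u V) ≤ C * (1 + hV V) := by
  classical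
  obtain ⟨C, hC⟩ := mult_boundT (r := r) F (fun i => ⟨d i, hF i⟩) 1
    ⟨0, isHomogeneous_one _ _⟩ Set.univ (fun L _ _ c l _ h1 h2 => by
      obtain ⟨i, i', hi⟩ := h2
      exact absurd (hno L c l (fun i _ => h1 i) (fun i hi => absurd (Finset.mem_univ i) hi) i i')
        hi) Γ hΓ
  refine ⟨|C| + (r + 1) + 1, fun u V hu hx0 hx => ?_⟩
  obtain ⟨J, hJ, hh⟩ := hC u V (fun j a h => absurd (Set.mem_univ _) h) hu
    ⟨hx0, hx, by rw [map_one]; exact one_ne_zero⟩
  obtain ⟨c, hc, hc2⟩ := good_prop J u V hJ hx0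
  have h3 := psum_height J u V
  rw [hc2, absLogHeight_smul _ hc] at h3
  have h6 : 0 ≤ hV V := absLogHeight_nonneg _
  have h7 : C * (1 + hV V) ≤ |C| * (1 + hV V) :=
    mul_le_mul_of_nonneg_right (le_abs_self C) (by linarith)
  have h8 : (0 : ℝ) ≤ r := Nat.cast_nonneg r
  nlinarith [mul_nonneg h8 h6]

include hF hΓ in
/-- Finiteness of the points close to a group of finite rank. -/
theorem proj_near (hno : NoCurP r Finset.univ F) (D : ℕ) (hD : 1 ≤ D) (hdD : ∀ i, d i ≤ D) :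
    ∃ (A : ℝ) (e : ℕ), ∀ V : Fin r → Fin (n + 1) → Qbar,
      (mixPts F 1 Γ (epsn ((D + 1) ^ r) / D / 2) V).Finite ∧
      ((mixPts F 1 Γ (epsn ((D + 1) ^ r) / D / 2) V).ncard : ℝ) ≤ A * (1 + hV V) ^ e := by
  classical
  obtain ⟨A, e, hA⟩ := mix_finiteT (r := r) F D hD (fun i => ⟨d i, hdD i, hF i⟩) 1
    ⟨0, isHomogeneous_one _ _⟩ Set.univ (fun L _ _ c l _ h1 h2 => by
      obtain ⟨i, i', hi⟩ := h2
      exact absurd (hno L c l (fun i _ => h1 i) (fun i hi => absurd (Finset.mem_univ i) hi) i i')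
        hi) Γ hΓ
  exact ⟨A, e, fun V => hA V (fun j a h => absurd (Set.mem_univ _) h)⟩

end Proj

section Pair

/-- the point of the affine variety -/
noncomputable def zpt (Z : Finset (Fin q)) (b0 : Fin q) (d : Fin q → ℕ) (x : Fin (n + 1) → Qbar)
    (ρ : Qbarˣ) (w : Fin q → Qbarˣ) : Fin ((n + 1) + q) → Qbar :=
  Fin.append (fun a => ((ρ⁻¹ : Qbarˣ) : Qbar) * x a)
    (fun i => if i ∈ Z ∨ i = b0 then 0 else ((ρ ^ d i * (w i)⁻¹ : Qbarˣ) : Qbar))

/-- the coefficients -/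
noncomputable def zu (d : Fin q → ℕ) (u : Fin r → Qbarˣ) (ρ : Qbarˣ) (w : Fin q → Qbarˣ) :
    Fin (r + q) → Qbarˣ :=
  Fin.append (fun j => u j * ρ⁻¹) (fun i => ρ ^ d i * (w i)⁻¹)

/-- the vectors -/
noncomputable def zV (Z : Finset (Fin q)) (b0 : Fin q) (V : Fin r → Fin (n + 1) → Qbar) :
    Fin (r + q) → Fin ((n + 1) + q) → Qbar :=
  Fin.append (fun j => Fin.append (V j) (fun _ => 0))
    (fun i => Fin.append (fun _ => 0) (fun i' => if i' = i ∧ ¬ (i ∈ Z ∨ i = b0) then 1 else 0))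

/-- the small coefficients -/
noncomputable def zs (s : Fin r → Qbar) : Fin (r + q) → Qbar := Fin.append s (fun _ => 1)

theorem zpt_eq (Z : Finset (Fin q)) (b0 : Fin q) (d : Fin q → ℕ) (u : Fin r → Qbarˣ)
    (s : Fin r → Qbar) (V : Fin r → Fin (n + 1) → Qbar) (ρ : Qbarˣ) (w : Fin q → Qbarˣ)
    (a : Fin ((n + 1) + q)) :
    zpt Z b0 d (fun a => ∑ j, (u j : Qbar) * s j * V j a) ρ w a =
      ∑ j, (zu d u ρ w j : Qbar) * zs s j * zV Z b0 V j a := by
  classical
  rw [Fin.sum_univ_add]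
  unfold zpt zu zV zs
  refine Fin.addCases (fun a => ?_) (fun i => ?_) a
  · simp only [Fin.append_left, Fin.append_right, mul_zero, Finset.sum_const_zero, add_zero]
    rw [Finset.mul_sum]
    refine Finset.sum_congr rfl fun j _ => ?_
    push_cast
    ring
  · simp only [Fin.append_left, Fin.append_right, mul_zero, Finset.sum_const_zero, zero_add,
      mul_one]
    rw [Finset.sum_eq_single i]
    · by_cases hi : i ∈ Z ∨ i = b0
      · rw [if_pos hi, if_neg (fun h => h.2 hi), mul_zero]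
      · rw [if_neg hi, if_pos ⟨rfl, hi⟩, mul_one]
    · intro j _ hj
      rw [if_neg (fun h => hj h.1.symm), mul_zero]
    · intro h
      exact absurd (Finset.mem_univ i) h

theorem zs_height (s : Fin r → Qbar) : hA (zs (q := q) s) ≤ hA s := by
  unfold hA
  have h := absLogHeight_comp_le (ι := Option (Fin (r + q))) (ι' := Option (Fin r))
    (fun o => o.elim none (Fin.append (fun j => some j) (fun _ => none)))
    (fun o : Option (Fin r) => o.elim (1 : Qbar) s)
  refine le_trans (le_of_eq ?_) h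
  congr 1
  funext o
  rcases o with _ | j
  · rfl
  · refine Fin.addCases (fun j => ?_) (fun j => ?_) j
    · simp [zs]
    · simp [zs]

theorem zV_height (Z : Finset (Fin q)) (b0 : Fin q) (V : Fin r → Fin (n + 1) → Qbar) :
    hAV (zV Z b0 V) ≤ hAV V := by
  classical
  have h0 : (fun o : Option (Fin r × Fin (n + 1)) => o.elim (1 : Qbar) (fun p => V p.1 p.2)) ≠ 0 := by
    intro h
    have := congrFun h none
    simp at this
  have h := height_pad (fun o : Option (Fin r × Fin (n + 1)) =>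
    o.elim (1 : Qbar) (fun p => V p.1 p.2))
    h0 (τ := Option (Fin (r + q) × Fin ((n + 1) + q)))
    (fun o => o.elim none fun p => Fin.append (fun j => Fin.append (fun a => some (j, a))
      (fun _ => none) p.2) (fun _ => none) p.1)
    (fun o => o.elim 1 fun p => Fin.append (fun _ => Fin.append (fun _ => 1)
      (fun _ => 0) p.2) (fun i => Fin.append (fun _ => 0)
        (fun i' => if i' = i ∧ ¬ (i ∈ Z ∨ i = b0) then 1 else 0) p.2) p.1)
  unfold hAV hA
  refine le_trans (le_of_eq ?_) h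
  congr 1
  funext o
  rcases o with _ | ⟨j, a⟩
  · simp
  · simp only [Option.elim_some]
    unfold zV
    refine Fin.addCases (fun j => ?_) (fun j => ?_) j
    · refine Fin.addCases (fun a => ?_) (fun a => ?_) a
      · simp
      · simp
    · refine Fin.addCases (fun a => ?_) (fun a => ?_) a
      · simp
      · simp only [Fin.append_right]
        split_ifs with h1
        · simp
        · simp

variable [Algebra k Qbar]

theorem zpt_off (Z : Finset (Fin q)) (b0 : Fin q) (hb : b0 ∉ Z)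
    (F : Fin q → MvPolynomial (Fin (n + 1)) k) {d : Fin q → ℕ}
    (hF : ∀ i, (F i).IsHomogeneous (d i)) (x : Fin (n + 1) → Qbar) (ρ : Qbarˣ) (w : Fin q → Qbarˣ)
    (hρ : ρ ^ d b0 = w b0) (hZ : ∀ i ∈ Z, aeval x (F i) = 0)
    (hw : ∀ i, i ∉ Z → aeval x (F i) = (w i : Qbar)) :
    OffA (pairE Z b0 F) 1 (zpt Z b0 d x ρ w) := by
  refine ⟨?_, by rw [map_one]; exact one_ne_zero⟩
  rw [pairE_iff Z b0 hb F]
  have hx : (fun a => zpt Z b0 d x ρ w (Fin.castAdd q a)) =
      fun a => ((ρ⁻¹ : Qbarˣ) : Qbar) * x a := by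
    funext a
    simp [zpt]
  have hFx : ∀ i, aeval (fun a => zpt Z b0 d x ρ w (Fin.castAdd q a)) (F i) =
      ((ρ⁻¹ : Qbarˣ) : Qbar) ^ d i * aeval x (F i) := by
    intro i
    rw [hx, aeval_hom_smul (F i) (hF i)]
  refine ⟨fun i hi => ?_, ?_, fun i hi hib => ?_, fun i hi => ?_⟩
  · rw [hFx, hZ i hi, mul_zero]
  · rw [hFx, hw b0 hb, ← hρ]
    push_cast
    rw [inv_pow, inv_mul_cancel₀ (pow_ne_zero _ ρ.ne_zero)]
  · rw [hFx, hw i hi]
    simp only [zpt, Fin.append_right]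
    rw [if_neg (by tauto)]
    push_cast
    have h1 := ρ.ne_zero
    have h2 := (w i).ne_zero
    rw [inv_pow]
    field_simp
  · simp only [zpt, Fin.append_right]
    rw [if_pos hi]

theorem hull_one (Γ : Subgroup Qbarˣ) : (1 : Qbarˣ) ∈ DivHull Γ :=
  ⟨1, one_pos, by rw [pow_one]; exact Γ.one_mem⟩

theorem hull_inv (Γ : Subgroup Qbarˣ) {u : Qbarˣ} (h : u ∈ DivHull Γ) : u⁻¹ ∈ DivHull Γ := by
  have := div_mem_hull Γ 1 u (hull_one Γ) h
  rwa [one_div] at this

theorem hull_mul (Γ : Subgroup Qbarˣ) {u v : Qbarˣ} (h : u ∈ DivHull Γ) (h' : v ∈ DivHull Γ) :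
    u * v ∈ DivHull Γ := by
  have := div_mem_hull Γ u v⁻¹ h (hull_inv Γ h')
  rwa [div_inv_eq_mul] at this

theorem hull_pow (Γ : Subgroup Qbarˣ) {u : Qbarˣ} (h : u ∈ DivHull Γ) (m : ℕ) :
    u ^ m ∈ DivHull Γ := by
  induction m with
  | zero => rw [pow_zero]; exact hull_one Γ
  | succ m ih => rw [pow_succ]; exact hull_mul Γ ih h

theorem hull_root (Γ : Subgroup Qbarˣ) {u : Qbarˣ} (h : u ∈ DivHull Γ) {d : ℕ} (hd : 0 < d) :
    ∃ ρ ∈ DivHull Γ, ρ ^ d = u := by
  obtain ⟨z, hz⟩ := IsAlgClosed.exists_pow_nat_eq (u : Qbar) hd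
  have hz0 : z ≠ 0 := by
    rintro rfl
    rw [zero_pow hd.ne'] at hz
    exact u.ne_zero hz.symm
  obtain ⟨m, hm, hu⟩ := h
  have h1 : (Units.mk0 z hz0) ^ d = u := by
    ext
    push_cast
    exact hz
  refine ⟨Units.mk0 z hz0, ⟨d * m, Nat.mul_pos hd hm, ?_⟩, h1⟩
  rw [pow_mul, h1]
  exact hu

/-- The point `x` is on the pair, and the values of the forms of the boundary are in the division
hull of the group. -/
def PairPt (Z : Finset (Fin q)) (F : Fin q → MvPolynomial (Fin (n + 1)) k) (Γ : Subgroup Qbarˣ)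
    (x : Fin (n + 1) → Qbar) : Prop :=
  (∀ i ∈ Z, aeval x (F i) = 0) ∧ ∀ i, i ∉ Z → ∃ w ∈ DivHull Γ, aeval x (F i) = (w : Qbar)

theorem pairPt_data (Z : Finset (Fin q)) (b0 : Fin q) (hb : b0 ∉ Z)
    (F : Fin q → MvPolynomial (Fin (n + 1)) k) {d : Fin q → ℕ} (hd0 : 0 < d b0)
    (Γ : Subgroup Qbarˣ) (x : Fin (n + 1) → Qbar) (hx : PairPt Z F Γ x) :
    ∃ (ρ : Qbarˣ) (w : Fin q → Qbarˣ), ρ ∈ DivHull Γ ∧ (∀ i, w i ∈ DivHull Γ) ∧
      ρ ^ d b0 = w b0 ∧ ∀ i, i ∉ Z → aeval x (F i) = (w i : Qbar) := by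
  classical
  have h1 : ∀ i, ∃ w ∈ DivHull Γ, i ∉ Z → aeval x (F i) = (w : Qbar) := by
    intro i
    by_cases hi : i ∈ Z
    · exact ⟨1, hull_one Γ, fun h => absurd hi h⟩
    · obtain ⟨w, hw, h⟩ := hx.2 i hi
      exact ⟨w, hw, fun _ => h⟩
  choose w hw hwx using h1
  obtain ⟨ρ, hρ, hρ2⟩ := hull_root Γ (hw b0) hd0
  exact ⟨ρ, w, hρ, hw, hρ2, hwx⟩

variable [CharZero k] (Z : Finset (Fin q)) (b0 : Fin q) (hb : b0 ∉ Z)
  (F : Fin q → MvPolynomial (Fin (n + 1)) k) {d : Fin q → ℕ} (hd0 : 0 < d b0)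
  (hF : ∀ i, (F i).IsHomogeneous (d i)) (Γ : Subgroup Qbarˣ) (hΓ : Γ.FG)

include hb hd0 hF hΓ in
/-- **The height inequality on general pairs.** -/
theorem pair_heights (hno : NoCurP (r + q) Z F) :
    ∃ C : ℝ, ∀ (u : Fin r → Qbarˣ) (V : Fin r → Fin (n + 1) → Qbar), (∀ j, u j ∈ DivHull Γ) →
      PairPt Z F Γ (psum Finset.univ u V) →
      absLogHeight (psum Finset.univ u V) ≤ C * (1 + hAV V) := by
  classical
  obtain ⟨C, hC⟩ := heightsOff (pairE Z b0 F) (∑ i, d i + 1) (pairE_deg Z b0 d F hF) 1 (r + q)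
    (pair_curCond Z b0 hb d hd0 F hF (r + q) hno) Γ hΓ
  refine ⟨|C|, fun u V hu hx => ?_⟩
  obtain ⟨ρ, w, hρ, hw, hρw, hwx⟩ := pairPt_data Z b0 hb F hd0 Γ _ hx
  have hxs : psum Finset.univ u V = fun a => ∑ j, (u j : Qbar) * (fun _ => (1 : Qbar)) j * V j a := by
    funext a
    unfold Pool.Agent.Y215.SK.psum
    exact Finset.sum_congr rfl fun j _ => by rw [mul_one]
  have hz := zpt_eq Z b0 d u (fun _ => 1) V ρ w
  rw [← hxs] at hz
  have hz1 : (fun a => ∑ j, (zu d u ρ w j : Qbar) * zV Z b0 V j a) =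
      zpt Z b0 d (psum Finset.univ u V) ρ w := by
    funext a
    rw [hz]
    refine Finset.sum_congr rfl fun j _ => ?_
    have : zs (q := q) (fun _ : Fin r => (1 : Qbar)) j = 1 := by
      unfold zs
      refine Fin.addCases (fun j => ?_) (fun j => ?_) j <;> simp
    rw [this, mul_one]
  have h1 := hC (zu d u ρ w) (zV Z b0 V) (fun j => by
    unfold zu
    refine Fin.addCases (fun j => ?_) (fun i => ?_) j
    · rw [Fin.append_left]
      exact hull_mul Γ (hu j) (hull_inv Γ hρ)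
    · rw [Fin.append_right]
      exact hull_mul Γ (hull_pow Γ hρ _) (hull_inv Γ (hw i))) (by
    rw [hz1]
    exact zpt_off Z b0 hb F hF _ ρ w hρw hx.1 hwx)
  rw [hz1] at h1
  have h2 : absLogHeight (psum Finset.univ u V) ≤ hA (zpt Z b0 d (psum Finset.univ u V) ρ w) := by
    have h3 := absLogHeight_comp_le (fun a : Fin (n + 1) => (some (Fin.castAdd q a) :
      Option (Fin ((n + 1) + q)))) (fun o : Option (Fin ((n + 1) + q)) =>
        o.elim (1 : Qbar) (zpt Z b0 d (psum Finset.univ u V) ρ w))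
    have h4 : (fun o : Option (Fin ((n + 1) + q)) =>
        o.elim (1 : Qbar) (zpt Z b0 d (psum Finset.univ u V) ρ w)) ∘
        (fun a : Fin (n + 1) => (some (Fin.castAdd q a) : Option (Fin ((n + 1) + q)))) =
        ((ρ⁻¹ : Qbarˣ) : Qbar) • psum Finset.univ u V := by
      funext a
      simp [zpt]
    rw [h4, absLogHeight_smul _ (Units.ne_zero _)] at h3
    exact h3
  refine h2.trans (h1.trans ?_)
  have h5 := zV_height Z b0 V
  have h6 := hAV_nonneg (zV Z b0 V)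
  exact mul_le_mul (le_abs_self C) (by linarith) (by linarith) (abs_nonneg C)

/-- the points of the pair close to the group -/
def pairNear (Z : Finset (Fin q)) (F : Fin q → MvPolynomial (Fin (n + 1)) k) (Γ : Subgroup Qbarˣ)
    (ε : ℝ) (V : Fin r → Fin (n + 1) → Qbar) :
    Set (Projectivization Qbar (Fin (n + 1) → Qbar)) :=
  {P | ∃ (u : Fin r → Qbarˣ) (s : Fin r → Qbar)
    (h : (fun a => ∑ j, (u j : Qbar) * s j * V j a) ≠ 0), (∀ j, u j ∈ DivHull Γ) ∧ hA s < ε ∧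
      P = Projectivization.mk Qbar _ h ∧
      PairPt Z F Γ (fun a => ∑ j, (u j : Qbar) * s j * V j a)}

include hb hd0 hF hΓ in
/-- **Finiteness on general pairs.** -/
theorem pair_near (hno : NoCurP (r + q) Z F) :
    ∃ (A : ℝ) (e : ℕ), ∀ V : Fin r → Fin (n + 1) → Qbar,
      (pairNear Z F Γ (Pool.Agent.Y215.AF.eps (∑ i, d i + 1) (r + q)) V).Finite ∧
      ((pairNear Z F Γ (Pool.Agent.Y215.AF.eps (∑ i, d i + 1) (r + q)) V).ncard : ℝ) ≤
        A * (1 + hAV V) ^ e := by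
  classical
  obtain ⟨A, e, hA⟩ := nearOff_main (pairE Z b0 F) (∑ i, d i + 1) (by omega)
    (pairE_deg Z b0 d F hF) 1 (r + q) (pair_curCond Z b0 hb d hd0 F hF (r + q) hno) Γ hΓ
  refine ⟨|A|, e, fun V => ?_⟩
  obtain ⟨hfin, hcard⟩ := hA (zV Z b0 V)
  set ε := Pool.Agent.Y215.AF.eps (∑ i, d i + 1) (r + q) with hε
  let θ : (Fin ((n + 1) + q) → Qbar) → Projectivization Qbar (Fin (n + 1) → Qbar) := fun z =>
    if h : (fun a => z (Fin.castAdd q a)) ≠ 0 then Projectivization.mk Qbar _ h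
    else Projectivization.mk Qbar (fun _ => 1) (fun h => one_ne_zero (congrFun h 0))
  have hsub : pairNear Z F Γ ε V ⊆ θ '' (nearOff (pairE Z b0 F) 1 Γ ε (zV Z b0 V)) := by
    rintro P ⟨u, s, h0, hu, hs, rfl, hx⟩
    obtain ⟨ρ, w, hρ, hw, hρw, hwx⟩ := pairPt_data Z b0 hb F hd0 Γ _ hx
    refine ⟨zpt Z b0 d (fun a => ∑ j, (u j : Qbar) * s j * V j a) ρ w, ⟨?_, zu d u ρ w, zs s,
      fun j => ?_, (zs_height s).trans_lt hs, zpt_eq Z b0 d u s V ρ w⟩, ?_⟩
    · exact zpt_off Z b0 hb F hF _ ρ w hρw hx.1 hwx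
    · unfold zu
      refine Fin.addCases (fun j => ?_) (fun i => ?_) j
      · rw [Fin.append_left]
        exact hull_mul Γ (hu j) (hull_inv Γ hρ)
      · rw [Fin.append_right]
        exact hull_mul Γ (hull_pow Γ hρ _) (hull_inv Γ (hw i))
    · have h1 : (fun a => zpt Z b0 d (fun a => ∑ j, (u j : Qbar) * s j * V j a) ρ w
          (Fin.castAdd q a)) = ((ρ⁻¹ : Qbarˣ) : Qbar) • fun a => ∑ j, (u j : Qbar) * s j * V j a := by
        funext a
        simp [zpt]
      have h2 : (fun a => zpt Z b0 d (fun a => ∑ j, (u j : Qbar) * s j * V j a) ρ w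
          (Fin.castAdd q a)) ≠ 0 := by
        rw [h1]
        exact smul_ne_zero (Units.ne_zero _) h0
      simp only [θ, dif_pos h2]
      rw [Projectivization.mk_eq_mk_iff']
      exact ⟨((ρ⁻¹ : Qbarˣ) : Qbar), h1.symm⟩
  have hfin' : (pairNear Z F Γ ε V).Finite := (hfin.image θ).subset hsub
  refine ⟨hfin', ?_⟩
  have h1 : (pairNear Z F Γ ε V).ncard ≤
      (nearOff (pairE Z b0 F) 1 Γ ε (zV Z b0 V)).ncard :=
    (Set.ncard_le_ncard hsub (hfin.image θ)).trans (Set.ncard_image_le hfin)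
  have h2 : ((pairNear Z F Γ ε V).ncard : ℝ) ≤ A * (1 + hAV (zV Z b0 V)) ^ e :=
    le_trans (by exact_mod_cast h1) hcard
  refine h2.trans ?_
  have h5 := zV_height Z b0 V
  have h6 := hAV_nonneg (zV Z b0 V)
  exact mul_le_mul (le_abs_self A) (pow_le_pow_left₀ (by linarith) (by linarith) _)
    (by positivity) (abs_nonneg _)

end Pair

end Pool.Agent.Q51.HG
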