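import Mathlib
import Pool.Agent.Q51.HG.PairsHt

set_option autoImplicit false

/-!
# General pairs: values of the boundary forms which are not in the group
-/

namespace Pool.Agent.Q51.HG

open Finset IsDedekindDomain NumberField
open MvPolynomial hiding psum
open Pool.Agent.H533R3.SL Pool.Agent.W235.RM Pool.Agent.Y215.AF
open Pool.Agent.Helper259.AbsHt Pool.Agent.Y215.SK
open Pool.Agent.Y215.SP (epsn)

variable {n q r : ℕ} {k : Type} [Field k]

/-- the vectors -/
noncomputable def zVz (Z : Finset (Fin q)) (b0 : Fin q) (d : Fin q → ℕ) (ρ : Qbarˣ)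
    (z : Fin q → Qbarˣ) (V : Fin r → Fin (n + 1) → Qbar) :
    Fin (r + q) → Fin ((n + 1) + q) → Qbar :=
  Fin.append (fun j => Fin.append (fun a => ((ρ⁻¹ : Qbarˣ) : Qbar) * V j a) (fun _ => 0))
    (fun i => Fin.append (fun _ => 0)
      (fun i' => if i' = i ∧ ¬ (i ∈ Z ∨ i = b0) then ((ρ ^ d i * (z i)⁻¹ : Qbarˣ) : Qbar) else 0))

theorem zptz_eq (Z : Finset (Fin q)) (b0 : Fin q) (d : Fin q → ℕ) (u : Fin r → Qbarˣ)
    (V : Fin r → Fin (n + 1) → Qbar) (ρ ρ' : Qbarˣ) (w z : Fin q → Qbarˣ)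
    (a : Fin ((n + 1) + q)) :
    zpt Z b0 d (psum Finset.univ u V) (ρ * ρ') (fun i => w i * z i) a =
      ∑ j, (zu d u ρ w j : Qbar) * zVz Z b0 d ρ' z V j a := by
  classical
  rw [Fin.sum_univ_add]
  unfold zpt zu zVz
  refine Fin.addCases (fun a => ?_) (fun i => ?_) a
  · simp only [Fin.append_left, Fin.append_right, mul_zero, Finset.sum_const_zero, add_zero]
    unfold Pool.Agent.Y215.SK.psum
    rw [Finset.mul_sum]
    refine Finset.sum_congr rfl fun j _ => ?_
    rw [mul_inv]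
    push_cast
    ring
  · simp only [Fin.append_left, Fin.append_right, mul_zero, Finset.sum_const_zero, zero_add]
    rw [Finset.sum_eq_single i]
    · by_cases hi : i ∈ Z ∨ i = b0
      · rw [if_pos hi, if_neg (fun h => h.2 hi), mul_zero]
      · rw [if_neg hi, if_pos ⟨rfl, hi⟩, mul_inv, mul_pow]
        push_cast
        ring
    · intro j _ hj
      rw [if_neg (fun h => hj h.1.symm), mul_zero]
    · intro h
      exact absurd (Finset.mem_univ i) h

theorem zVz_height (Z : Finset (Fin q)) (b0 : Fin q) (d : Fin q → ℕ) (ρ : Qbarˣ)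
    (z : Fin q → Qbarˣ) (V : Fin r → Fin (n + 1) → Qbar) :
    hAV (zVz Z b0 d ρ z V) ≤ hAV V + (h1 (ρ : Qbar) + ∑ i, (d i * h1 (ρ : Qbar) +
      if i ∈ Z ∨ i = b0 then 0 else h1 (z i : Qbar))) := by
  classical
  -- the two factors
  let x : Option (Fin r × Fin (n + 1)) → Qbar := fun o => o.elim (1 : Qbar) (fun p => V p.1 p.2)
  let y : Option (Option (Option (Fin q))) → Qbar := fun o => o.elim 0 (fun o => o.elim 1
    (fun o => o.elim ((ρ⁻¹ : Qbarˣ) : Qbar) (fun i => if i ∈ Z ∨ i = b0 then 1 else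
      ((ρ ^ d i * (z i)⁻¹ : Qbarˣ) : Qbar))))
  have hx : x ≠ 0 := by
    intro h
    have := congrFun h none
    simp [x] at this
  have hy : y ≠ 0 := by
    intro h
    have := congrFun h (some none)
    simp [y] at this
  have h := height_mul_le x y hx hy (τ := Option (Fin (r + q) × Fin ((n + 1) + q)))
    (fun o => o.elim none fun p => Fin.append (fun j => Fin.append (fun a => some (j, a))
      (fun _ => none) p.2) (fun _ => none) p.1)
    (fun o => o.elim (some none) fun p => Fin.append (fun _ => Fin.append (fun _ => some (some none))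
      (fun _ => none) p.2) (fun i => Fin.append (fun _ => none)
        (fun i' => if i' = i ∧ ¬ (i ∈ Z ∨ i = b0) then some (some (some i)) else none) p.2) p.1)
  have hyh : absLogHeight y ≤ h1 (ρ : Qbar) + ∑ i, (d i * h1 (ρ : Qbar) +
      if i ∈ Z ∨ i = b0 then 0 else h1 (z i : Qbar)) := by
    refine (height_le_sum y).trans ?_
    rw [Fintype.sum_option, Fintype.sum_option, Fintype.sum_option]
    simp only [y, Option.elim_none, Option.elim_some]
    rw [h1_zero, h1_one, zero_add, zero_add]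
    refine add_le_add (le_of_eq ?_) (Finset.sum_le_sum fun i _ => ?_)
    · push_cast
      exact h1_inv _
    · split_ifs with hi
      · rw [h1_one, add_zero]
        exact mul_nonneg (Nat.cast_nonneg _) (h1_nonneg _)
      · push_cast
        refine (h1_mul_le _ _).trans ?_
        rw [h1_pow, h1_inv]
  refine le_trans ?_ (h.trans (add_le_add le_rfl hyh))
  unfold hAV hA
  refine le_of_eq ?_
  congr 1
  funext o
  rcases o with _ | ⟨j, a⟩
  · simp [x, y]
  · simp only [Option.elim_some]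
    unfold zVz
    refine Fin.addCases (fun j => ?_) (fun j => ?_) j
    · refine Fin.addCases (fun a => ?_) (fun a => ?_) a
      · simp [x, y, mul_comm]
      · simp [x, y]
    · refine Fin.addCases (fun a => ?_) (fun a => ?_) a
      · simp [x, y]
      · simp only [Fin.append_right]
        by_cases h1 : a = j ∧ ¬ (j ∈ Z ∨ j = b0)
        · rw [if_pos h1, if_pos h1]
          simp [x, y, h1.2]
        · rw [if_neg h1, if_neg h1]
          simp [x, y]

variable [Algebra k Qbar] [CharZero k] (Z : Finset (Fin q)) (b0 : Fin q) (hb : b0 ∉ Z)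
  (F : Fin q → MvPolynomial (Fin (n + 1)) k) {d : Fin q → ℕ} (hd0 : 0 < d b0)
  (hF : ∀ i, (F i).IsHomogeneous (d i)) (Γ : Subgroup Qbarˣ) (hΓ : Γ.FG)

include hb hd0 hF hΓ in
/-- **The height inequality on general pairs for arbitrary values of the boundary forms.** -/
theorem pair_heights_z (hno : NoCurP (r + q) Z F) :
    ∃ C : ℝ, 0 ≤ C ∧ ∀ (u : Fin r → Qbarˣ) (V : Fin r → Fin (n + 1) → Qbar) (w z : Fin q → Qbarˣ),
      (∀ j, u j ∈ DivHull Γ) → (∀ i, i ∉ Z → w i ∈ DivHull Γ) →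
      (∀ i ∈ Z, aeval (psum Finset.univ u V) (F i) = 0) →
      (∀ i, i ∉ Z → aeval (psum Finset.univ u V) (F i) = (w i : Qbar) * z i) →
      absLogHeight (psum Finset.univ u V) ≤
        C * (1 + hAV V + ∑ i, if i ∈ Z then 0 else h1 (z i : Qbar)) := by
  classical
  obtain ⟨C, hC⟩ := heightsOff (pairE Z b0 F) (∑ i, d i + 1) (pairE_deg Z b0 d F hF) 1 (r + q)
    (pair_curCond Z b0 hb d hd0 F hF (r + q) hno) Γ hΓ
  set E : ℝ := 2 + ∑ i, (d i : ℝ) with hE
  have hE0 : 0 ≤ ∑ i, (d i : ℝ) := Finset.sum_nonneg fun i _ => Nat.cast_nonneg _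
  refine ⟨|C| * E, by positivity, fun u V w0 z0 hu hw0 hZx hx => ?_⟩
  -- the values on `Z` do not matter
  set w : Fin q → Qbarˣ := fun i => if i ∈ Z then 1 else w0 i with hwdef
  set z : Fin q → Qbarˣ := fun i => if i ∈ Z then 1 else z0 i with hzdef
  have hw : ∀ i, w i ∈ DivHull Γ := by
    intro i
    by_cases hi : i ∈ Z
    · rw [hwdef]
      simp only [if_pos hi]
      exact hull_one Γ
    · rw [hwdef]
      simp only [if_neg hi]
      exact hw0 i hi
  have hwx : ∀ i, i ∉ Z → aeval (psum Finset.univ u V) (F i) = ((w i * z i : Qbarˣ) : Qbar) := by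
    intro i hi
    rw [hx i hi, hwdef, hzdef]
    simp only [if_neg hi]
    push_cast
    rfl
  obtain ⟨ρ, hρ, hρw⟩ := hull_root Γ (hw b0) hd0
  obtain ⟨y, hy⟩ := IsAlgClosed.exists_pow_nat_eq ((z b0 : Qbarˣ) : Qbar) hd0
  have hy0 : y ≠ 0 := by
    rintro rfl
    rw [zero_pow hd0.ne'] at hy
    exact (z b0).ne_zero hy.symm
  set ρ' : Qbarˣ := Units.mk0 y hy0 with hρ'
  have hρz : ρ' ^ d b0 = z b0 := by
    ext
    push_cast
    exact hy
  have hρh : h1 (ρ' : Qbar) ≤ h1 (z b0 : Qbar) := by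
    have h2 : h1 ((z b0 : Qbarˣ) : Qbar) = d b0 * h1 (ρ' : Qbar) := by
      rw [← hρz, ← h1_pow]
      push_cast
      rfl
    have h3 : (1 : ℝ) ≤ d b0 := by exact_mod_cast hd0
    have h4 := h1_nonneg (ρ' : Qbar)
    rw [h2]
    nlinarith
  have hz := zptz_eq Z b0 d u V ρ ρ' w z
  have hz1 : (fun a => ∑ j, (zu d u ρ w j : Qbar) * zVz Z b0 d ρ' z V j a) =
      zpt Z b0 d (psum Finset.univ u V) (ρ * ρ') (fun i => w i * z i) := funext fun a => (hz a).symm
  have h1' := hC (zu d u ρ w) (zVz Z b0 d ρ' z V) (fun j => by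
    unfold zu
    refine Fin.addCases (fun j => ?_) (fun i => ?_) j
    · rw [Fin.append_left]
      exact hull_mul Γ (hu j) (hull_inv Γ hρ)
    · rw [Fin.append_right]
      exact hull_mul Γ (hull_pow Γ hρ _) (hull_inv Γ (hw i))) (by
    rw [hz1]
    exact zpt_off Z b0 hb F hF _ (ρ * ρ') (fun i => w i * z i)
      (by rw [mul_pow, hρw, hρz]) hZx hwx)
  rw [hz1] at h1'
  have h2 : absLogHeight (psum Finset.univ u V) ≤
      hA (zpt Z b0 d (psum Finset.univ u V) (ρ * ρ') (fun i => w i * z i)) := by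
    have h3 := absLogHeight_comp_le (fun a : Fin (n + 1) => (some (Fin.castAdd q a) :
      Option (Fin ((n + 1) + q)))) (fun o : Option (Fin ((n + 1) + q)) =>
        o.elim (1 : Qbar) (zpt Z b0 d (psum Finset.univ u V) (ρ * ρ') (fun i => w i * z i)))
    have h4 : (fun o : Option (Fin ((n + 1) + q)) =>
        o.elim (1 : Qbar) (zpt Z b0 d (psum Finset.univ u V) (ρ * ρ') (fun i => w i * z i))) ∘
        (fun a : Fin (n + 1) => (some (Fin.castAdd q a) : Option (Fin ((n + 1) + q)))) =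
        (((ρ * ρ')⁻¹ : Qbarˣ) : Qbar) • psum Finset.univ u V := by
      funext a
      simp [zpt]
    rw [h4, absLogHeight_smul _ (Units.ne_zero _)] at h3
    exact h3
  have h5 := zVz_height Z b0 d ρ' z V
  have h6 := hAV_nonneg (zVz Z b0 d ρ' z V)
  have h7 := hAV_nonneg V
  -- the heights of the values
  have hzz : ∀ i, (if i ∈ Z then 0 else h1 (z0 i : Qbar)) = h1 (z i : Qbar) := by
    intro i
    rw [hzdef]
    by_cases hi : i ∈ Z
    · simp only [if_pos hi]
      push_cast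
      exact h1_one.symm
    · simp only [if_neg hi]
  have hS : ∑ i, (if i ∈ Z then 0 else h1 (z0 i : Qbar)) = ∑ i, h1 (z i : Qbar) :=
    Finset.sum_congr rfl fun i _ => hzz i
  rw [hS]
  have hb1 : h1 (z b0 : Qbar) ≤ ∑ i, h1 (z i : Qbar) :=
    Finset.single_le_sum (f := fun i => h1 (z i : Qbar)) (fun i _ => h1_nonneg _)
      (Finset.mem_univ b0)
  have h8 : h1 (ρ' : Qbar) + ∑ i, (d i * h1 (ρ' : Qbar) +
      if i ∈ Z ∨ i = b0 then 0 else h1 (z i : Qbar)) ≤ E * ∑ i, h1 (z i : Qbar) := by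
    rw [Finset.sum_add_distrib, ← Finset.sum_mul]
    have h9 : ∑ i, (if i ∈ Z ∨ i = b0 then 0 else h1 (z i : Qbar)) ≤ ∑ i, h1 (z i : Qbar) :=
      Finset.sum_le_sum fun i _ => by
        split_ifs
        · exact h1_nonneg _
        · exact le_rfl
    have h10 : h1 (ρ' : Qbar) ≤ ∑ i, h1 (z i : Qbar) := hρh.trans hb1
    have h11 : (∑ i, (d i : ℝ)) * h1 (ρ' : Qbar) ≤ (∑ i, (d i : ℝ)) * ∑ i, h1 (z i : Qbar) :=
      mul_le_mul_of_nonneg_left h10 hE0
    rw [hE]
    linarith
  have h12 : 0 ≤ ∑ i, h1 (z i : Qbar) := Finset.sum_nonneg fun i _ => h1_nonneg _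
  have h13 : C * (1 + hAV (zVz Z b0 d ρ' z V)) ≤
      |C| * (1 + hAV (zVz Z b0 d ρ' z V)) :=
    mul_le_mul_of_nonneg_right (le_abs_self C) (by linarith)
  have hE1 : 1 ≤ E := by linarith
  have h14 : 1 + hAV (zVz Z b0 d ρ' z V) ≤ E * (1 + hAV V + ∑ i, h1 (z i : Qbar)) := by
    nlinarith
  refine h2.trans (h1'.trans (h13.trans ?_))
  rw [mul_assoc]
  exact mul_le_mul_of_nonneg_left h14 (abs_nonneg C)

end Pool.Agent.Q51.HG
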