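import Mathlib
import Pool.Agent.Q51.HG.All
import Pool.Agent.H159R3.GGL.Log

set_option autoImplicit false

/-!
# Weighted parts of the equations along an entire curve given by high powers
-/

namespace Pool.Agent.Q51.HG

open MvPolynomial Pool.Agent.H533R3.SL Pool.Agent.H159R3.NV Pool.Agent.H159R3.Toric

variable {N r q : ℕ}

/-- a rational functional with integral values at some numbers, not vanishing at others -/
theorem exists_functional {ι κ : Type} [Fintype ι] [Finite κ] (s : ι → ℂ) (t : κ → ℂ)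
    (ht : ∀ k, t k ≠ 0) :
    ∃ ψ : ℂ →ₗ[ℚ] ℚ, (∀ i, ∃ n : ℤ, ψ (s i) = n) ∧ ∀ k, ψ (t k) ≠ 0 := by
  classical
  obtain ⟨ψ, hψ⟩ := Module.exists_dual_forall_apply_ne_zero (K := ℚ) t ht
  set D : ℕ := ∏ i, (ψ (s i)).den with hD
  have hD0 : (D : ℚ) ≠ 0 := by
    rw [hD]
    exact_mod_cast Finset.prod_ne_zero_iff.mpr fun j _ => (ψ (s j)).den_nz
  refine ⟨(D : ℚ) • ψ, fun i => ?_, fun k => ?_⟩
  · refine ⟨(∏ i ∈ Finset.univ.erase i, ((ψ (s i)).den : ℤ)) * (ψ (s i)).num, ?_⟩
    have e : (D : ℚ) = (ψ (s i)).den * ∏ i ∈ Finset.univ.erase i, ((ψ (s i)).den : ℚ) := by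
      rw [hD]
      push_cast
      rw [Finset.mul_prod_erase Finset.univ (fun i => ((ψ (s i)).den : ℚ)) (Finset.mem_univ i)]
    push_cast
    rw [LinearMap.smul_apply, smul_eq_mul, e]
    have e2 : ((ψ (s i)).num : ℚ) = ψ (s i) * (ψ (s i)).den := (Rat.mul_den_eq_num _).symm
    rw [e2]
    ring
  · rw [LinearMap.smul_apply, smul_eq_mul]
    exact mul_ne_zero hD0 (hψ k)

theorem wHC_monomial {σ : Type} {R : Type} [CommRing R] (w : σ → ℤ) (v : ℤ) (β : σ →₀ ℕ) (g : R) :
    weightedHomogeneousComponent w v (monomial β g) =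
      if Finsupp.weight w β = v then monomial β g else 0 := by
  classical
  ext γ
  rw [coeff_weightedHomogeneousComponent, coeff_monomial]
  by_cases h1 : β = γ
  · subst h1
    by_cases h2 : Finsupp.weight w β = v
    · rw [if_pos h2, if_pos h2, if_pos rfl, coeff_monomial, if_pos rfl]
    · rw [if_neg h2, if_neg h2, coeff_zero]
  · rw [if_neg h1, ite_self]
    split_ifs
    · rw [coeff_monomial, if_neg h1]
    · rw [coeff_zero]

theorem weight_fin {n : ℕ} (w : Fin n → ℤ) (β : Fin n →₀ ℕ) :
    Finsupp.weight w β = ∑ j, (β j : ℤ) * w j := by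
  rw [Finsupp.weight_apply, Finsupp.sum_fintype _ _ (by simp)]
  simp

theorem eval_wHC {n : ℕ} (w : Fin n → ℤ) (v : ℤ) (P : MvPolynomial (Fin n) ℂ) (x : Fin n → ℂ) :
    eval x (weightedHomogeneousComponent w v P) =
      ∑ α ∈ P.support.filter (fun α => ∑ j, (α j : ℤ) * w j = v), P.coeff α * ∏ j, x j ^ α j := by
  classical
  rw [weightedHomogeneousComponent_apply, map_sum]
  refine Finset.sum_congr ?_ fun α _ => ?_
  · refine Finset.filter_congr fun α _ => ?_
    rw [weight_fin]
  · rw [eval_monomial, Finsupp.prod_fintype _ _ (fun j => pow_zero _)]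

theorem prod_single {n : ℕ} (j : Fin n) (x : Fin n → ℂ) :
    ((Finsupp.single j 1).prod fun i e => x i ^ e) = x j := by
  rw [Finsupp.prod_single_index]
  · exact pow_one _
  · exact pow_zero _

/-- the exponents of the powers, with one more variable -/
noncomputable def Ex (m : ℕ) (α : Fin r →₀ ℕ) : Fin (r + 1) →₀ ℕ :=
  Finsupp.equivFunOnFinite.symm (Fin.snoc (fun j => m * α j) 0)

theorem Ex_castSucc (m : ℕ) (α : Fin r →₀ ℕ) (j : Fin r) : Ex m α j.castSucc = m * α j := by
  simp [Ex]

theorem Ex_last (m : ℕ) (α : Fin r →₀ ℕ) : Ex m α (Fin.last r) = 0 := by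
  simp [Ex]

theorem part_eq (G : MvPolynomial (Fin r) ℂ) (m : ℕ) (hm0 : 0 < m) (hm : G.support.card ^ 2 ≤ m)
    (h : Fin r → ℂ → ℂ) (hh : ∀ j, Differentiable ℂ (h j)) (u : ℂ → ℂ) (hu : Differentiable ℂ u)
    (hu0 : ∀ z, u z ≠ 0) (ε : ℂ) (hG : ∀ z, eval (fun j => h j z ^ m) G = ε * u z) (z0 : ℂ)
    (hz0 : ∀ j, (∃ z, h j z ≠ 0) → h j z0 ≠ 0) (ψ : ℂ →ₗ[ℚ] ℚ) (b : Fin r → ℤ)
    (hb : ∀ j, ψ (deriv (h j) z0 / h j z0) = b j) (b' : ℤ)
    (hb' : ψ (deriv u z0 / u z0) = b') (v : ℤ) :
    (∑ α ∈ G.support, if (m : ℤ) * ∑ j, (α j : ℤ) * b j = v then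
      coeff α G * ∏ j, (h j z0 ^ m) ^ α j else 0) = if b' = v then ε * u z0 else 0 := by
  classical
  set P : MvPolynomial (Fin (r + 1)) ℂ :=
    ∑ α ∈ G.support, monomial (Ex m α) (coeff α G) - monomial (Finsupp.single (Fin.last r) 1) ε
    with hP
  have hsupp : P.support ⊆ G.support.image (Ex m) ∪ {Finsupp.single (Fin.last r) 1} := by
    refine (support_sub _ _ _).trans (Finset.union_subset_union ?_ support_monomial_subset)
    refine (support_sum).trans ?_
    intro β hβ
    obtain ⟨α, hα, h1⟩ := Finset.mem_biUnion.1 hβ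
    have h2 := Finset.mem_singleton.1 (support_monomial_subset h1)
    exact Finset.mem_image.2 ⟨α, hα, h2.symm⟩
  have hcard : (P.support.card - 1) ^ 2 ≤ m := by
    refine le_trans (Nat.pow_le_pow_left ?_ 2) hm
    have h1 := Finset.card_le_card hsupp
    have h2 := Finset.card_union_le (G.support.image (Ex m)) {Finsupp.single (Fin.last r) 1}
    have h3 := Finset.card_image_le (s := G.support) (f := Ex m)
    rw [Finset.card_singleton] at h2
    omega
  have hev : ∀ x : Fin (r + 1) → ℂ, eval x P =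
      eval (fun j => x j.castSucc ^ m) G - ε * x (Fin.last r) := by
    intro x
    rw [hP, map_sub, map_sum, eval_monomial]
    congr 1
    · rw [eval_eq']
      refine Finset.sum_congr rfl fun α _ => ?_
      rw [eval_monomial, Finsupp.prod_fintype _ _ (fun j => pow_zero _), Fin.prod_univ_castSucc,
        Ex_last, pow_zero, mul_one]
      congr 1
      refine Finset.prod_congr rfl fun j _ => ?_
      rw [Ex_castSucc, pow_mul]
    · rw [prod_single]
  have key := toric (Fin.snoc h u : Fin (r + 1) → ℂ → ℂ) (by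
      intro j
      refine Fin.lastCases ?_ (fun j => ?_) j
      · rw [Fin.snoc_last]
        exact hu
      · rw [Fin.snoc_castSucc]
        exact hh j) {Fin.last r} (by
      intro j hj z
      rw [Set.mem_singleton_iff] at hj
      subst hj
      rw [Fin.snoc_last]
      exact hu0 z) z0 (by
      intro j
      refine Fin.lastCases ?_ (fun j => ?_) j
      · intro _
        rw [Fin.snoc_last]
        exact hu0 z0
      · rw [Fin.snoc_castSucc]
        exact hz0 j) (Fin.snoc b b' : Fin (r + 1) → ℤ) (by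
      intro p hp
      have h1 := congrArg ψ hp
      rw [map_sum, map_zero, Fin.sum_univ_castSucc] at h1
      have h2 : ∀ (n : ℤ) (x : ℂ), ψ ((n : ℂ) * x) = n * ψ x := by
        intro n x
        have h3 : ((n : ℂ) * x) = (n : ℚ) • x := by
          rw [Rat.smul_def]
          push_cast
          rfl
        rw [h3, map_smul, smul_eq_mul]
      have h4 : ((∑ j, p j * (Fin.snoc b b' : Fin (r + 1) → ℤ) j : ℤ) : ℚ) = 0 := by
        rw [Fin.sum_univ_castSucc]
        push_cast
        rw [← h1, h2]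
        congr 1
        · refine Finset.sum_congr rfl fun j _ => ?_
          rw [h2, Fin.snoc_castSucc, Fin.snoc_castSucc, hb]
        · rw [Fin.snoc_last, Fin.snoc_last, hb']
      exact_mod_cast h4) P hm0 hcard (by
      intro β hβ j hj
      rcases Finset.mem_union.1 (hsupp hβ) with h1 | h1
      · obtain ⟨α, _, rfl⟩ := Finset.mem_image.1 h1
        revert hj
        refine Fin.lastCases ?_ (fun j => ?_) j
        · intro hj
          exact absurd rfl hj
        · intro _
          rw [Ex_castSucc]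
          exact Dvd.intro _ rfl
      · rw [Finset.mem_singleton.1 h1, Finsupp.single_apply, if_neg]
        · exact dvd_zero _
        · intro h
          exact hj h.symm) (by
      intro z
      rw [hev]
      simp only [Fin.snoc_castSucc, Fin.snoc_last]
      rw [hG z, sub_self]) v
  have key2 : eval (fun j => (Fin.snoc h u : Fin (r + 1) → ℂ → ℂ) j z0)
      (weightedHomogeneousComponent (Fin.snoc b b' : Fin (r + 1) → ℤ) v P) = 0 := by
    rw [eval_wHC]
    exact key
  rw [hP, map_sub, map_sum, map_sub, map_sum, sub_eq_zero] at key2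
  have e1 : ∀ α ∈ G.support, eval (fun j => (Fin.snoc h u : Fin (r + 1) → ℂ → ℂ) j z0)
      (weightedHomogeneousComponent (Fin.snoc b b' : Fin (r + 1) → ℤ) v
        (monomial (Ex m α) (coeff α G))) =
      if (m : ℤ) * ∑ j, (α j : ℤ) * b j = v then
        coeff α G * ∏ j, (h j z0 ^ m) ^ α j else 0 := by
    intro α _
    have hw : Finsupp.weight (Fin.snoc b b' : Fin (r + 1) → ℤ) (Ex m α) =
        (m : ℤ) * ∑ j, (α j : ℤ) * b j := by
      rw [weight_fin, Fin.sum_univ_castSucc, Ex_last, Finset.mul_sum]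
      simp only [Fin.snoc_castSucc, Ex_castSucc]
      push_cast
      rw [zero_mul, add_zero]
      exact Finset.sum_congr rfl fun j _ => by ring
    rw [wHC_monomial, hw]
    split_ifs
    · rw [eval_monomial, Finsupp.prod_fintype _ _ (fun j => pow_zero _), Fin.prod_univ_castSucc,
        Ex_last, pow_zero, mul_one]
      congr 1
      refine Finset.prod_congr rfl fun j _ => ?_
      rw [Ex_castSucc, pow_mul, Fin.snoc_castSucc]
    · rw [map_zero]
  rw [Finset.sum_congr rfl e1] at key2
  rw [key2, wHC_monomial]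
  have hw : Finsupp.weight (Fin.snoc b b' : Fin (r + 1) → ℤ) (Finsupp.single (Fin.last r) 1) =
      b' := by
    rw [Finsupp.weight_single]
    simp
  rw [hw]
  split_ifs
  · rw [eval_monomial, prod_single, Fin.snoc_last]
  · rw [map_zero]

end Pool.Agent.Q51.HG
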