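import Mathlib
import Pool.Agent.Q51.HG.Part

set_option autoImplicit false

/-!
# Entire curves whose coordinates are sums of few high powers of entire functions
-/

namespace Pool.Agent.Q51.HG

open MvPolynomial Pool.Agent.H533R3.SL Pool.Agent.H159R3.NV Pool.Agent.H159R3
open scoped Topology

variable {N r q : ℕ}

theorem GU_hom (c : Fin r → Fin (N + 1) → ℂ) (F : MvPolynomial (Fin (N + 1)) ℂ) (e : ℕ)
    (hF : F.IsHomogeneous e) : (GU c F).IsHomogeneous e := by
  have h1 : (GU c F).IsHomogeneous (1 * e) := by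
    unfold GU
    refine hF.aeval _ (fun i => ?_)
    refine MvPolynomial.IsHomogeneous.sum _ _ _ fun j _ => ?_
    simpa using (MvPolynomial.isHomogeneous_C (Fin r) (c j i)).mul
      (MvPolynomial.isHomogeneous_X ℂ j)
  rwa [one_mul] at h1

theorem GU_sum (c : Fin r → Fin (N + 1) → ℂ) (F : MvPolynomial (Fin (N + 1)) ℂ) (e : ℕ)
    (hF : F.IsHomogeneous e) (α : Fin r →₀ ℕ) (hα : α ∈ (GU c F).support) : ∑ j, α j = e := by
  have h2 := GU_hom c F e hF (mem_support_iff.1 hα)
  rw [Finsupp.weight_apply, Finsupp.sum_fintype _ _ (by simp)] at h2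
  simpa using h2

theorem GU_card (c : Fin r → Fin (N + 1) → ℂ) (F : MvPolynomial (Fin (N + 1)) ℂ) (e : ℕ)
    (hF : F.IsHomogeneous e) : (GU c F).support.card ≤ (r + e - 1).choose e := by
  have h1 : (GU c F).support ⊆ Finset.finsuppAntidiag Finset.univ e := by
    intro α hα
    rw [Finset.mem_finsuppAntidiag]
    exact ⟨GU_sum c F e hF α hα, Finset.subset_univ _⟩
  have h2 := Finset.card_le_card h1
  rwa [Finset.card_finsuppAntidiag_nat_eq_choose, Finset.card_univ, Fintype.card_fin] at h2

theorem eval_GU (c : Fin r → Fin (N + 1) → ℂ) (F : MvPolynomial (Fin (N + 1)) ℂ)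
    (x : Fin r → ℂ) : eval x (GU c F) = eval (fun i => ∑ j, c j i * x j) F := by
  unfold GU
  rw [← aeval_eq_eval, ← aeval_eq_eval, comp_aeval_apply]
  congr 2
  funext i
  rw [map_sum]
  refine Finset.sum_congr rfl fun j _ => ?_
  rw [map_mul, aeval_C, aeval_X]
  rfl

theorem aeval_cur_smul (s : Fin r → ℂ) (c : Fin r → Fin (N + 1) → ℂ) (l : Fin r → ℕ)
    (F : MvPolynomial (Fin (N + 1)) ℂ) :
    MvPolynomial.aeval (cur (fun j i => s j * c j i) l) F =
      ∑ α ∈ (GU c F).support, Polynomial.C (coeff α (GU c F) * ∏ j, s j ^ α j) *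
        Polynomial.X ^ (∑ j, α j * l j) := by
  have h1 : MvPolynomial.aeval (cur (fun j i => s j * c j i) l) F =
      (MvPolynomial.aeval (fun j => Polynomial.C (s j) * (Polynomial.X : Polynomial ℂ) ^ (l j)) :
        MvPolynomial (Fin r) ℂ →ₐ[ℂ] Polynomial ℂ) (GU c F) := by
    unfold GU
    rw [comp_aeval_apply]
    congr 2
    funext i
    unfold cur
    rw [map_sum]
    refine Finset.sum_congr rfl fun j _ => ?_
    have e1 : (MvPolynomial.aeval (fun j => Polynomial.C (s j) *
        (Polynomial.X : Polynomial ℂ) ^ (l j)) : MvPolynomial (Fin r) ℂ →ₐ[ℂ] Polynomial ℂ)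
        (C (c j i) * X j) = Polynomial.C (c j i) * (Polynomial.C (s j) * Polynomial.X ^ l j) := by
      rw [map_mul, aeval_C, aeval_X]
      rfl
    rw [e1, Polynomial.C_mul]
    ring
  rw [h1, MvPolynomial.aeval_def, MvPolynomial.eval₂_eq']
  refine Finset.sum_congr rfl fun α _ => ?_
  rw [Polynomial.C_mul, mul_assoc]
  congr 1
  simp only [mul_pow]
  rw [Finset.prod_mul_distrib, map_prod, ← Finset.prod_pow_eq_pow_sum]
  congr 1
  · exact Finset.prod_congr rfl fun j _ => by rw [Polynomial.C_pow]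
  · exact Finset.prod_congr rfl fun j _ => by rw [← pow_mul, mul_comm]

theorem coeff_cur_smul (s : Fin r → ℂ) (c : Fin r → Fin (N + 1) → ℂ) (l : Fin r → ℕ)
    (F : MvPolynomial (Fin (N + 1)) ℂ) (e : ℕ) (hF : F.IsHomogeneous e) (b : Fin r → ℤ) (M : ℤ)
    (hl : ∀ j, (l j : ℤ) = b j + M) (m : ℕ) (hm : 0 < m) (t : ℕ) :
    (MvPolynomial.aeval (cur (fun j i => s j * c j i) l) F).coeff t =
      ∑ α ∈ (GU c F).support, if (m : ℤ) * ∑ j, (α j : ℤ) * b j = m * (t - e * M) then
        coeff α (GU c F) * ∏ j, s j ^ α j else 0 := by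
  rw [aeval_cur_smul, Polynomial.finsetSum_coeff]
  refine Finset.sum_congr rfl fun α hα => ?_
  rw [Polynomial.coeff_C_mul_X_pow]
  refine if_congr ?_ rfl rfl
  have h1 : ((∑ j, α j * l j : ℕ) : ℤ) = ∑ j, (α j : ℤ) * b j + e * M := by
    push_cast
    rw [← GU_sum c F e hF α hα]
    push_cast
    rw [Finset.sum_mul, ← Finset.sum_add_distrib]
    refine Finset.sum_congr rfl fun j _ => ?_
    rw [hl]
    ring
  have hm' : (m : ℤ) ≠ 0 := by exact_mod_cast hm.ne'
  constructor
  · intro h
    rw [h, h1]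
    ring
  · intro h
    have h2 := mul_left_cancel₀ hm' h
    have h3 : ((∑ j, α j * l j : ℕ) : ℤ) = t := by rw [h1, h2]; ring
    exact_mod_cast h3.symm

/-- The entire curve with coordinates `∑ c j i * h j ^ m`. -/
def pcv (c : Fin r → Fin (N + 1) → ℂ) (h : Fin r → ℂ → ℂ) (m : ℕ) (z : ℂ) (i : Fin (N + 1)) : ℂ :=
  ∑ j, c j i * h j z ^ m

/-- **Entire curves given by high powers yield curves with few terms.** -/
theorem no_entire (d : Fin q → ℕ) (Z : Finset (Fin q)) (F : Fin q → MvPolynomial (Fin (N + 1)) ℂ)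
    (hF : ∀ i, (F i).IsHomogeneous (d i))
    (hS : ∀ (c : Fin r → Fin (N + 1) → ℂ) (l : Fin r → ℕ),
      (∀ i ∈ Z, aeval (cur c l) (F i) = 0) →
      (∀ i, i ∉ Z → ∃ v, (aeval (cur c l) (F i)).coeff v ≠ 0 ∧
        ∀ t, t ≠ v → (aeval (cur c l) (F i)).coeff t = 0) →
      ∀ i1 i2, cur c l i1 * Polynomial.C (∑ j, c j i2) =
        cur c l i2 * Polynomial.C (∑ j, c j i1))
    {m : ℕ} (hm0 : 0 < m) (hm : ∀ i, ((r + d i - 1).choose (d i)) ^ 2 ≤ m)
    (c : Fin r → Fin (N + 1) → ℂ) (h : Fin r → ℂ → ℂ) (hh : ∀ j, Differentiable ℂ (h j))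
    (hne : ∃ z, pcv c h m z ≠ 0) (hZ : ∀ i ∈ Z, ∀ z, eval (pcv c h m z) (F i) = 0)
    (hC : ∀ i, i ∉ Z → ∀ z, eval (pcv c h m z) (F i) ≠ 0) (z w : ℂ) (i1 i2 : Fin (N + 1)) :
    pcv c h m z i1 * pcv c h m w i2 = pcv c h m z i2 * pcv c h m w i1 := by
  classical
  set W : Fin r × Fin r → ℂ → ℂ := fun p z =>
    h p.1 z * deriv (h p.2) z - h p.2 z * deriv (h p.1) z with hW
  have hdd : ∀ j, Differentiable ℂ (deriv (h j)) := fun j =>
    ((hh j).contDiff (n := 2)).differentiable_deriv_two
  have hWd : ∀ p, Differentiable ℂ (W p) := fun p =>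
    ((hh p.1).mul (hdd p.2)).sub ((hh p.2).mul (hdd p.1))
  have hpd : Differentiable ℂ fun z => pcv c h m z := by
    rw [differentiable_pi]
    intro i
    unfold pcv
    exact Differentiable.fun_sum fun j _ => ((hh j).pow m).const_mul _
  obtain ⟨z1, hz1⟩ := hne
  obtain ⟨k, hk⟩ := Function.ne_iff.1 hz1
  obtain ⟨z0, hz0, hz0W, hk'⟩ : ∃ z0, (∀ j, (∃ z, h j z ≠ 0) → h j z0 ≠ 0) ∧
      (∀ p, (∃ z, W p z ≠ 0) → W p z0 ≠ 0) ∧ pcv c h m z0 k ≠ 0 := by
    have hev : ∀ᶠ z in 𝓝[≠] (0 : ℂ), (∀ j, (∃ z, h j z ≠ 0) → h j z ≠ 0) ∧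
        (∀ p, (∃ z, W p z ≠ 0) → W p z ≠ 0) ∧ pcv c h m z k ≠ 0 := by
      refine Filter.Eventually.and ?_ (Filter.Eventually.and ?_
        (ev_ne (differentiable_pi.1 hpd k) hk 0))
      · rw [Filter.eventually_all]
        intro j
        by_cases hj : ∃ z, h j z ≠ 0
        · obtain ⟨z, hz⟩ := hj
          filter_upwards [ev_ne (hh j) hz 0] with w hw _
          exact hw
        · exact Filter.Eventually.of_forall fun w hw => absurd hw hj
      · rw [Filter.eventually_all]
        intro p
        by_cases hj : ∃ z, W p z ≠ 0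
        · obtain ⟨z, hz⟩ := hj
          filter_upwards [ev_ne (hWd p) hz 0] with w hw _
          exact hw
        · exact Filter.Eventually.of_forall fun w hw => absurd hw hj
    exact hev.exists
  -- the functional
  let u : Fin q → ℂ → ℂ := fun i z => if i ∈ Z then 1 else eval (pcv c h m z) (F i)
  obtain ⟨ψ, hψ1, hψ2⟩ := exists_functional
    (fun o : Fin r ⊕ Fin q => Sum.elim (fun j => deriv (h j) z0 / h j z0)
      (fun i => deriv (u i) z0 / u i z0) o)
    (fun p : {p : Fin r × Fin r // h p.1 z0 ≠ 0 ∧ h p.2 z0 ≠ 0 ∧ W p z0 ≠ 0} =>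
      deriv (h p.1.2) z0 / h p.1.2 z0 - deriv (h p.1.1) z0 / h p.1.1 z0) (by
      rintro ⟨p, h1, h2, h3⟩ h0
      apply h3
      simp only at h0
      rw [div_sub_div _ _ h2 h1, div_eq_zero_iff] at h0
      rcases h0 with h0 | h0
      · simp only [hW]
        linear_combination h0
      · exact absurd h0 (mul_ne_zero h2 h1))
  choose bb hbb using hψ1
  set b : Fin r → ℤ := fun j => bb (Sum.inl j) with hb
  have hb1 : ∀ j, ψ (deriv (h j) z0 / h j z0) = b j := fun j => hbb (Sum.inl j)
  set M : ℤ := ∑ j, |b j| with hM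
  set l : Fin r → ℕ := fun j => (b j + M).toNat with hldef
  have hl : ∀ j, (l j : ℤ) = b j + M := by
    intro j
    rw [hldef]
    apply Int.toNat_of_nonneg
    have h1 : |b j| ≤ M := Finset.single_le_sum (f := fun j => |b j|) (fun _ _ => abs_nonneg _)
      (Finset.mem_univ j)
    have h2 := neg_abs_le (b j)
    linarith
  set s : Fin r → ℂ := fun j => h j z0 ^ m with hs
  have hGz : ∀ i z, eval (fun j => h j z ^ m) (GU c (F i)) = eval (pcv c h m z) (F i) := by
    intro i z
    rw [eval_GU]
    rfl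
  have hcard : ∀ i, (GU c (F i)).support.card ^ 2 ≤ m := fun i =>
    (Nat.pow_le_pow_left (GU_card c (F i) (d i) (hF i)) 2).trans (hm i)
  have hcoZ : ∀ i ∈ Z, aeval (cur (fun j i => s j * c j i) l) (F i) = 0 := by
    intro i hi
    ext t
    rw [coeff_cur_smul s c l (F i) (d i) (hF i) b M hl m hm0 t,
      part_eq (GU c (F i)) m hm0 (hcard i) h hh (fun _ => 1) (differentiable_const _)
      (fun _ => one_ne_zero) 0 (fun z => by rw [hGz, hZ i hi z, zero_mul]) z0 hz0 ψ b hb1 0
      (by simp) _]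
    simp
  have hcoC : ∀ i, i ∉ Z → ∀ t, (aeval (cur (fun j i => s j * c j i) l) (F i)).coeff t =
      if bb (Sum.inr i) = m * (t - d i * M) then eval (pcv c h m z0) (F i) else 0 := by
    intro i hi t
    have hu : u i = fun z => eval (pcv c h m z) (F i) := by
      funext z
      simp only [u, if_neg hi]
    rw [coeff_cur_smul s c l (F i) (d i) (hF i) b M hl m hm0 t,
      part_eq (GU c (F i)) m hm0 (hcard i) h hh (u i) (by
        rw [hu]
        have : (fun z => eval (pcv c h m z) (F i)) = fun z => ∑ α ∈ (F i).support,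
            (F i).coeff α * ∏ j, pcv c h m z j ^ α j := by
          funext z
          rw [eval_eq']
        rw [this]
        apply Differentiable.fun_sum
        intro α _
        apply Differentiable.const_mul
        apply Differentiable.fun_finsetProd
        intro j _
        exact ((differentiable_pi.1 hpd) j).pow _)
      (fun z => by rw [hu]; exact hC i hi z) 1 (fun z => by rw [hGz, hu, one_mul]) z0 hz0 ψ b hb1
      (bb (Sum.inr i)) (hbb (Sum.inr i)) _, hu, one_mul]
  have hf0 : ∀ i, ∑ j, s j * c j i = pcv c h m z0 i := by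
    intro i
    unfold pcv
    exact Finset.sum_congr rfl fun j _ => mul_comm _ _
  have hmono : ∀ i, i ∉ Z → ∃ v, (aeval (cur (fun j i => s j * c j i) l) (F i)).coeff v ≠ 0 ∧
      ∀ t, t ≠ v → (aeval (cur (fun j i => s j * c j i) l) (F i)).coeff t = 0 := by
    intro i hi
    have hne0 : aeval (cur (fun j i => s j * c j i) l) (F i) ≠ 0 := by
      intro h0
      have h1 := Pool.Agent.TH182.VD.eval_aeval (cur (fun j i => s j * c j i) l) (F i) 1
      rw [h0, Polynomial.eval_zero] at h1
      apply hC i hi z0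
      have e1 : (fun i' => (cur (fun j i => s j * c j i) l i').eval 1) = pcv c h m z0 := by
        funext i'
        rw [cur_eval_one, hf0]
      rw [h1, e1]
    obtain ⟨t, ht⟩ : ∃ t, (aeval (cur (fun j i => s j * c j i) l) (F i)).coeff t ≠ 0 := by
      by_contra hcon
      push Not at hcon
      exact hne0 (Polynomial.ext fun t => by rw [hcon t, Polynomial.coeff_zero])
    refine ⟨t, ht, fun t' ht' => ?_⟩
    rw [hcoC i hi t] at ht
    rw [hcoC i hi t', if_neg]
    intro h1
    have h2 : bb (Sum.inr i) = m * (t - d i * M) := by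
      by_contra hcon
      rw [if_neg hcon] at ht
      exact ht rfl
    rw [h2] at h1
    have hm' : (m : ℤ) ≠ 0 := by exact_mod_cast hm0.ne'
    have h3 := mul_left_cancel₀ hm' h1
    apply ht'
    have h4 : (t : ℤ) = t' := by linarith
    exact_mod_cast h4.symm
  have hrig := hS (fun j i => s j * c j i) l hcoZ hmono
  simp only [hf0] at hrig
  -- all points are proportional to the point at `z0`
  have hprop : ∀ z i1 i2, pcv c h m z i1 * pcv c h m z0 i2 = pcv c h m z i2 * pcv c h m z0 i1 := by
    intro z i1 i2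
    set x : Fin r → ℂ := fun j => s j * c j i1 * pcv c h m z0 i2 - s j * c j i2 * pcv c h m z0 i1
      with hx
    have hfib : ∀ t : ℕ, ∑ j ∈ Finset.univ.filter (fun j => l j = t), x j = 0 := by
      intro t
      have h1 := congrArg (fun P => Polynomial.coeff P t) (hrig i1 i2)
      simp only [Polynomial.coeff_mul_C] at h1
      have h2 : ∀ i, (cur (fun j i => s j * c j i) l i).coeff t =
          ∑ j ∈ Finset.univ.filter (fun j => l j = t), s j * c j i := by
        intro i
        unfold cur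
        rw [Polynomial.finsetSum_coeff, Finset.sum_filter]
        refine Finset.sum_congr rfl fun j _ => ?_
        rw [Polynomial.coeff_C_mul_X_pow]
        exact if_congr eq_comm rfl rfl
      rw [h2, h2, Finset.sum_mul, Finset.sum_mul, ← sub_eq_zero, ← Finset.sum_sub_distrib] at h1
      exact h1
    -- ratio functions
    have hrat : ∀ j k, l j = l k → s j ≠ 0 → s k ≠ 0 → h j z / h j z0 = h k z / h k z0 := by
      intro j k hjk hj hk
      have hj0 : h j z0 ≠ 0 := fun h0 => hj (by simp only [hs]; rw [h0, zero_pow hm0.ne'])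
      have hk0 : h k z0 ≠ 0 := fun h0 => hk (by simp only [hs]; rw [h0, zero_pow hm0.ne'])
      have hbjk : b j = b k := by
        have h1 := hl j
        rw [hjk, hl k] at h1
        linarith
      have hW0 : W (j, k) z0 = 0 := by
        by_contra hcon
        apply hψ2 ⟨(j, k), hj0, hk0, hcon⟩
        simp only
        rw [map_sub, hb1, hb1, hbjk, sub_self]
      have hWall : ∀ z, W (j, k) z = 0 := by
        by_contra hcon
        push Not at hcon
        exact hz0W (j, k) hcon hW0
      obtain ⟨a, ha⟩ := Lang.proportional (hh k) (hh j) ⟨z0, hj0⟩ (fun z => hWall z)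
      have ha0 : a ≠ 0 := by
        rintro rfl
        apply hk0
        rw [ha z0, zero_mul]
      rw [ha z, ha z0, mul_div_mul_left _ _ ha0]
    have hsum : ∑ j, x j * (h j z / h j z0) ^ m = 0 := by
      rw [← Finset.sum_fiberwise_of_maps_to (t := Finset.univ.image l)
        (fun j _ => Finset.mem_image_of_mem l (Finset.mem_univ j))]
      refine Finset.sum_eq_zero fun t _ => ?_
      by_cases hact : ∃ k, l k = t ∧ s k ≠ 0
      · obtain ⟨k, hk, hsk⟩ := hact
        have h1 : ∀ j ∈ Finset.univ.filter (fun j => l j = t), x j * (h j z / h j z0) ^ m =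
            x j * (h k z / h k z0) ^ m := by
          intro j hj
          by_cases hsj : s j = 0
          · simp only [hx, hsj]
            ring
          · rw [hrat j k ((Finset.mem_filter.1 hj).2.trans hk.symm) hsj hsk]
        rw [Finset.sum_congr rfl h1, ← Finset.sum_mul, hfib t, zero_mul]
      · push Not at hact
        refine Finset.sum_eq_zero fun j hj => ?_
        have h1 := hact j (Finset.mem_filter.1 hj).2
        simp only [hx, h1]
        ring
    have hval : ∀ i, pcv c h m z i = ∑ j, s j * c j i * (h j z / h j z0) ^ m := by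
      intro i
      unfold pcv
      refine Finset.sum_congr rfl fun j _ => ?_
      by_cases hj : ∃ z, h j z ≠ 0
      · have h1 := hz0 j hj
        simp only [hs]
        rw [div_pow]
        field_simp
      · push Not at hj
        simp only [hs]
        rw [hj z, hj z0, zero_pow hm0.ne']
        ring
    rw [← sub_eq_zero]
    rw [hval i1, hval i2, Finset.sum_mul, Finset.sum_mul, ← Finset.sum_sub_distrib, ← hsum]
    refine Finset.sum_congr rfl fun j _ => ?_
    simp only [hx]
    ring
  have e1 := hprop z i1 k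
  have e2 := hprop z i2 k
  have e3 := hprop w i1 k
  have e4 := hprop w i2 k
  have h5 : (pcv c h m z i1 * pcv c h m w i2 - pcv c h m z i2 * pcv c h m w i1) *
      (pcv c h m z0 k * pcv c h m z0 k) = 0 := by
    linear_combination (pcv c h m w i2 * pcv c h m z0 k) * e1 - (pcv c h m w i1 *
      pcv c h m z0 k) * e2 + (pcv c h m z k * pcv c h m z0 i1) * e4 -
      (pcv c h m z k * pcv c h m z0 i2) * e3
  have h6 := (mul_eq_zero.mp h5).resolve_right (mul_ne_zero hk' hk')
  linear_combination h6

end Pool.Agent.Q51.HG
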