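import Mathlib
import Pool.Agent.Q51.HG.Gen

set_option autoImplicit false

/-!
# Smoothness of general hypersurfaces
-/

namespace Pool.Agent.Q51.HG

open MvPolynomial
open Pool.Agent.TH182.VD (CI exists_dualK)
open Pool.Agent.TH182.VG (IsDer)

variable {N q : ℕ}

/-- the point of the parameter space for the singular points -/
noncomputable def pts {L : Type} [CommRing L] (d : Fin q → ℕ)
    (F : Fin q → MvPolynomial (Fin (N + 1)) L) (x : Fin (N + 1) → L) (w : L) :
    MvPolynomial (Option (Fin (N + 1))) (MvPolynomial (CI N d) ℤ) →+* L :=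
  eval₂Hom (sp d F).toRingHom (fun o => o.elim w x)

theorem pts_C {L : Type} [CommRing L] (d : Fin q → ℕ) (F : Fin q → MvPolynomial (Fin (N + 1)) L)
    (x : Fin (N + 1) → L) (w : L) (y : MvPolynomial (CI N d) ℤ) :
    pts d F x w (C y) = sp d F y := by
  unfold pts
  rw [eval₂Hom_C]
  rfl

theorem pts_X {L : Type} [CommRing L] (d : Fin q → ℕ) (F : Fin q → MvPolynomial (Fin (N + 1)) L)
    (x : Fin (N + 1) → L) (w : L) (o : Option (Fin (N + 1))) :
    pts d F x w (X o) = o.elim w x := by
  unfold pts
  rw [eval₂Hom_X']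

/-- the universal partial derivative -/
noncomputable def uD (N : ℕ) (d : Fin q → ℕ) (i : Fin q) (k : Fin (N + 1)) :
    MvPolynomial (Option (Fin (N + 1))) (MvPolynomial (CI N d) ℤ) :=
  aeval (fun j => X (some j)) (pderiv k (uF N d i))

theorem pts_uD {L : Type} [CommRing L] (d : Fin q → ℕ) (F : Fin q → MvPolynomial (Fin (N + 1)) L)
    (hF : ∀ i, (F i).IsHomogeneous (d i)) (x : Fin (N + 1) → L) (w : L) (i : Fin q)
    (k : Fin (N + 1)) : pts d F x w (uD N d i k) = eval x (pderiv k (F i)) := by
  have h1 : pderiv k (F i) = MvPolynomial.map (sp d F).toRingHom (pderiv k (uF N d i)) := by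
    rw [← pderiv_map, map_uF d F hF i]
  rw [h1, eval_map]
  unfold uD
  rw [aeval_def, MvPolynomial.hom_eval₂]
  congr 1
  · ext y
    · simp
    · simp only [RingHom.comp_apply, MvPolynomial.algebraMap_eq, pts_C]
      rfl
  · funext j
    exact pts_X d F x w (some j)

/-- **General hypersurfaces are smooth.** -/
theorem gen_smooth (d : Fin q → ℕ) (i : Fin q) (hd : 0 < d i) :
    ∃ h : MvPolynomial (CI N d) ℤ, h ≠ 0 ∧ ∀ (L : Type) [Field L]
      (F : Fin q → MvPolynomial (Fin (N + 1)) L), (∀ i, (F i).IsHomogeneous (d i)) →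
      sp d F h ≠ 0 → ∀ x : Fin (N + 1) → L, (∀ k, eval x (pderiv k (F i)) = 0) → x = 0 := by
  classical
  have key : ∀ j : Fin (N + 1), ∃ h : MvPolynomial (CI N d) ℤ, h ≠ 0 ∧ ∀ (L : Type) [Field L]
      (F : Fin q → MvPolynomial (Fin (N + 1)) L), (∀ i, (F i).IsHomogeneous (d i)) →
      sp d F h ≠ 0 → ∀ x : Fin (N + 1) → L, (∀ k, eval x (pderiv k (F i)) = 0) → x j = 0 := by
    intro j
    let S : Set (MvPolynomial (Option (Fin (N + 1))) (MvPolynomial (CI N d) ℤ)) :=
      {p | ∃ k, p = uD N d i k} ∪ {X none * X (some j) - 1}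
    have hbot : Countable (⊥ : Subfield ℂ) := by
      have h1 : Cardinal.mk (⊥ : Subfield ℂ) ≤ Cardinal.aleph0 := by
        rw [← Subfield.closure_empty]
        refine (Subfield.cardinalMk_closure_le_max _).trans (max_le ?_ le_rfl)
        simp
      exact Cardinal.mk_le_aleph0_iff.1 h1
    have : Countable (CI N d) := by unfold CI; infer_instance
    obtain ⟨a, ha⟩ := exists_indep ⊥ hbot (CI N d)
    have haZ : AlgebraicIndependent ℤ a := by
      have h1 : AlgebraicIndependent ℚ a :=
        ha.restrictScalars (algebraMap ℚ (⊥ : Subfield ℂ)).injective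
      exact h1.restrictScalars (algebraMap ℤ ℚ).injective_int
    have hkey : ∀ (y : Option (Fin (N + 1)) → ℂ)
        (p : MvPolynomial (Option (Fin (N + 1))) (MvPolynomial (CI N d) ℤ)),
        eval₂ (aeval a : MvPolynomial (CI N d) ℤ →ₐ[ℤ] ℂ).toRingHom y p =
        pts d (gF N d a) (fun j => y (some j)) (y none) p := by
      intro y p
      unfold pts
      rw [sp_gF, coe_eval₂Hom]
      congr 1
      funext o
      cases o <;> rfl
    obtain ⟨h, hh, hI⟩ := transfer (Ideal.span S) a haZ (by
      intro y
      by_contra hcon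
      push Not at hcon
      set x : Fin (N + 1) → ℂ := fun j => y (some j) with hx
      have hS : ∀ p ∈ S, pts d (gF N d a) x (y none) p = 0 := fun p hp => by
        rw [← hkey]
        exact hcon p (Ideal.subset_span hp)
      have hD : ∀ k, eval x (pderiv k (gF N d a i)) = 0 := by
        intro k
        rw [← pts_uD d (gF N d a) (gF_hom d a) x (y none) i k]
        exact hS _ (Or.inl ⟨k, rfl⟩)
      have hxj : x j ≠ 0 := by
        intro h0
        have h1 := hS _ (Or.inr rfl)
        rw [map_sub, map_mul, map_one, pts_X, pts_X] at h1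
        simp only [Option.elim_some, h0, mul_zero, zero_sub, neg_eq_zero] at h1
        exact one_ne_zero h1
      -- Euler's formula
      have hE : eval x (gF N d a i) = 0 := by
        have h1 := congrArg (eval x) (gF_hom d a i).sum_X_mul_pderiv
        rw [map_sum, map_nsmul, Finset.sum_eq_zero (fun k _ => by rw [map_mul, hD k, mul_zero]),
          nsmul_eq_mul, eq_comm, mul_eq_zero] at h1
        rcases h1 with h1 | h1
        · exact absurd (by exact_mod_cast h1 : d i = 0) hd.ne'
        · exact h1
      have hdeg : (Finsupp.single j (d i)).degree = d i := by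
        rw [Finsupp.degree_single]
      obtain ⟨D, hDer, -, hD1, hD0⟩ := exists_dualK ha (⟨i, Finsupp.single j (d i), hdeg⟩ : CI N d)
      have h2 := hDer.chain (k := ℂ) x (gF N d a i)
      simp only [← aeval_eq_eval] at hD hE
      rw [hE, hDer.zero] at h2
      simp only [RingHom.id_apply] at h2
      rw [Finset.sum_eq_zero (s := Finset.univ) (fun k _ => by
        have h3 : (aeval x) (pderiv k (gF N d a i)) = 0 := hD k
        rw [h3, zero_mul]), add_zero,
        Finset.sum_eq_single (Finsupp.single j (d i))] at h2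
      · have h4 : D (algebraMap ℂ ℂ (coeff (Finsupp.single j (d i)) (gF N d a i))) = 1 := by
          have h5 := coeff_gF d a ⟨i, Finsupp.single j (d i), hdeg⟩
          rw [← hD1, ← h5]
          rfl
        have h6 : ((Finsupp.single j (d i)).prod fun i k => x i ^ k) = x j ^ d i := by
          rw [Finsupp.prod_single_index]
          exact pow_zero _
        rw [h4, mul_one, aeval_monomial, map_one, one_mul, h6] at h2
        exact hxj (eq_zero_of_pow_eq_zero h2.symm)
      · intro β hβ hne
        have hβd : β.degree = d i := by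
          rw [Finsupp.degree_eq_weight_one]
          exact gF_hom d a i (mem_support_iff.1 hβ)
        have h4 : D (algebraMap ℂ ℂ (coeff β (gF N d a i))) = 0 := by
          have h5 := coeff_gF d a ⟨i, β, hβd⟩
          have h6 := hD0 ⟨i, β, hβd⟩ (by
            intro h7
            rw [Sigma.mk.injEq] at h7
            have h8 := h7.2
            rw [heq_eq_eq, Subtype.mk.injEq] at h8
            exact hne h8)
          rw [← h6, ← h5]
          rfl
        rw [h4, mul_zero]
      · intro hn
        exfalso
        rw [notMem_support_iff] at hn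
        have h5 := coeff_gF d a ⟨i, Finsupp.single j (d i), hdeg⟩
        simp only at h5
        rw [hn] at h5
        exact (ha.ne_zero ⟨i, Finsupp.single j (d i), hdeg⟩) h5.symm)
    refine ⟨h, hh, ?_⟩
    intro L _ F hF hsp x hx
    by_contra hxj
    have hle : Ideal.span S ≤ RingHom.ker (pts d F x (x j)⁻¹) := by
      rw [Ideal.span_le]
      rintro p (⟨k, rfl⟩ | rfl)
      · change pts d F x _ _ = 0
        rw [pts_uD d F hF, hx k]
      · change pts d F x _ _ = 0
        rw [map_sub, map_mul, map_one, pts_X, pts_X]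
        simp only [Option.elim_some, Option.elim_none]
        rw [inv_mul_cancel₀ hxj, sub_self]
    have h5 : pts d F x (x j)⁻¹ (C h) = 0 := hle hI
    rw [pts_C] at h5
    exact hsp h5
  choose h hh0 hh using key
  refine ⟨∏ j, h j, Finset.prod_ne_zero_iff.2 fun j _ => hh0 j, ?_⟩
  intro L _ F hF hsp x hx
  rw [map_prod, Finset.prod_ne_zero_iff] at hsp
  funext j
  exact hh j L F hF (hsp j (Finset.mem_univ j)) x hx

end Pool.Agent.Q51.HG
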