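import Mathlib
import Pool.Agent.Q51.HG.All
import Pool.Agent.Y741.MTop

set_option autoImplicit false

/-!
# The range of the degrees for general complete intersections
-/

namespace Pool.Agent.Q51.HG

open MvPolynomial Pool.Agent.H533R3.SL
open Pool.Agent.TH182.VD (CI)

variable {N q : ℕ}

/-- the range of the degrees for the complete intersections -/
def Range (N : ℕ) (d : Fin q → ℕ) : Prop :=
  2 * N + 1 ≤ ∑ i, (d i + 1) ∨
    (2 * N ≤ ∑ i, (d i + 1) + 1 ∧ (q + 5 ≤ N ∨ 3 * N + 3 ≤ 2 * ∑ i, d i + q))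

theorem noGm_range (hN : 1 ≤ N) (d : Fin q → ℕ) (hd0 : ∀ i, 0 < d i) (h : Range N d) :
    NoGm N d Finset.univ := by
  classical
  have hsum : ∑ i, (d i + 1) = ∑ i, d i + q := by
    rw [Finset.sum_add_distrib, Finset.sum_const, Finset.card_univ, smul_eq_mul, mul_one,
      Fintype.card_fin]
  rcases h with h | ⟨h1, h2⟩
  · exact noGm N d Finset.univ (by rw [Finset.card_univ, Fintype.card_fin]; omega)
  · have hbot : Countable (⊥ : Subfield ℂ) := by
      have h1 : Cardinal.mk (⊥ : Subfield ℂ) ≤ Cardinal.aleph0 := by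
        rw [← Subfield.closure_empty]
        refine (Subfield.cardinalMk_closure_le_max _).trans (max_le ?_ le_rfl)
        simp
      exact Cardinal.mk_le_aleph0_iff.1 h1
    refine ⟨⊥, hbot, fun F hF hind P hP => ?_⟩
    have ht := Pool.Agent.Y741.m_tfae (k0 := (⊥ : Subfield ℂ)) (k := ℂ) (G := F) hN hd0 hF hind
      (by rw [Fintype.card_fin]; tauto)
    have h3 : ∀ P, ¬ Pool.Agent.Y741.GmX F P := (ht.out 2 5).2 (by omega)
    refine h3 P ⟨fun t ht => ⟨hP.ne t ht, fun a => ?_⟩, hP.nonconst⟩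
    exact (hP.mem t ht).1 (Sum.inr ⟨a, Finset.mem_univ a⟩)

end Pool.Agent.Q51.HG
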