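import Mathlib
import Pool.Agent.Q51.HG.Smooth

set_option autoImplicit false

/-!
# Smoothness of general complete intersections
-/

namespace Pool.Agent.Q51.HG

open MvPolynomial
open Pool.Agent.TH182.VD (CI exists_dualK)
open Pool.Agent.TH182.VG (IsDer)

variable {N q : ℕ}

/-- the point of the parameter space for the points and the relations of the gradients -/
noncomputable def ptc {L : Type} [CommRing L] (d : Fin q → ℕ)
    (F : Fin q → MvPolynomial (Fin (N + 1)) L) (x : Fin (N + 1) → L) (m : Fin q → L) (w : L) :
    MvPolynomial (Option (Fin (N + 1) ⊕ Fin q)) (MvPolynomial (CI N d) ℤ) →+* L :=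
  eval₂Hom (sp d F).toRingHom (fun o => o.elim w (Sum.elim x m))

theorem ptc_C {L : Type} [CommRing L] (d : Fin q → ℕ) (F : Fin q → MvPolynomial (Fin (N + 1)) L)
    (x : Fin (N + 1) → L) (m : Fin q → L) (w : L) (y : MvPolynomial (CI N d) ℤ) :
    ptc d F x m w (C y) = sp d F y := by
  unfold ptc
  rw [eval₂Hom_C]
  rfl

theorem ptc_X {L : Type} [CommRing L] (d : Fin q → ℕ) (F : Fin q → MvPolynomial (Fin (N + 1)) L)
    (x : Fin (N + 1) → L) (m : Fin q → L) (w : L) (o : Option (Fin (N + 1) ⊕ Fin q)) :
    ptc d F x m w (X o) = o.elim w (Sum.elim x m) := by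
  unfold ptc
  rw [eval₂Hom_X']

/-- the value of a form with universal coefficients -/
noncomputable def uE (N : ℕ) {q : ℕ} (d : Fin q → ℕ)
    (P : MvPolynomial (Fin (N + 1)) (MvPolynomial (CI N d) ℤ)) :
    MvPolynomial (Option (Fin (N + 1) ⊕ Fin q)) (MvPolynomial (CI N d) ℤ) :=
  aeval (fun j => X (some (Sum.inl j))) P

theorem ptc_uE {L : Type} [CommRing L] (d : Fin q → ℕ) (F : Fin q → MvPolynomial (Fin (N + 1)) L)
    (x : Fin (N + 1) → L) (m : Fin q → L) (w : L)
    (P : MvPolynomial (Fin (N + 1)) (MvPolynomial (CI N d) ℤ)) :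
    ptc d F x m w (uE N d P) = eval x (MvPolynomial.map (sp d F).toRingHom P) := by
  rw [eval_map]
  unfold uE
  rw [aeval_def, MvPolynomial.hom_eval₂]
  congr 1
  · ext y
    · simp
    · simp only [RingHom.comp_apply, MvPolynomial.algebraMap_eq, ptc_C]
      rfl
  · funext j
    exact ptc_X d F x m w (some (Sum.inl j))

/-- **General hypersurfaces are smooth and meet transversally.** -/
theorem gen_snc (N : ℕ) (d : Fin q → ℕ) :
    ∃ h : MvPolynomial (CI N d) ℤ, h ≠ 0 ∧ ∀ (L : Type) [Field L]
      (F : Fin q → MvPolynomial (Fin (N + 1)) L), (∀ i, (F i).IsHomogeneous (d i)) →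
      sp d F h ≠ 0 → ∀ x : Fin (N + 1) → L, x ≠ 0 →
      LinearIndependent L (fun i : {i // eval x (F i) = 0} => fun k =>
        eval x (pderiv k (F i.1))) := by
  classical
  have key : ∀ (j : Fin (N + 1)) (i0 : Fin q), ∃ h : MvPolynomial (CI N d) ℤ, h ≠ 0 ∧
      ∀ (L : Type) [Field L]
      (F : Fin q → MvPolynomial (Fin (N + 1)) L), (∀ i, (F i).IsHomogeneous (d i)) →
      sp d F h ≠ 0 → ∀ (x : Fin (N + 1) → L) (m : Fin q → L), (∀ i, m i * eval x (F i) = 0) →
      (∀ k, ∑ i, m i * eval x (pderiv k (F i)) = 0) → x j * m i0 = 0 := by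
    intro j i0
    let S : Set (MvPolynomial (Option (Fin (N + 1) ⊕ Fin q)) (MvPolynomial (CI N d) ℤ)) :=
      {p | ∃ i, p = X (some (Sum.inr i)) * uE N d (uF N d i)} ∪
      {p | ∃ k, p = ∑ i, X (some (Sum.inr i)) * uE N d (pderiv k (uF N d i))} ∪
      {X none * (X (some (Sum.inl j)) * X (some (Sum.inr i0))) - 1}
    have hbot : Countable (⊥ : Subfield ℂ) := by
      have h1 : Cardinal.mk (⊥ : Subfield ℂ) ≤ Cardinal.aleph0 := by
        rw [← Subfield.closure_empty]
        refine (Subfield.cardinalMk_closure_le_max _).trans (max_le ?_ le_rfl)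
        simp
      exact Cardinal.mk_le_aleph0_iff.1 h1
    have : Countable (CI N d) := by unfold CI; infer_instance
    obtain ⟨a, ha⟩ := exists_indep ⊥ hbot (CI N d)
    have haZ : AlgebraicIndependent ℤ a := by
      have h1 : AlgebraicIndependent ℚ a :=
        ha.restrictScalars (algebraMap ℚ (⊥ : Subfield ℂ)).injective
      exact h1.restrictScalars (algebraMap ℤ ℚ).injective_int
    have hkey : ∀ (y : Option (Fin (N + 1) ⊕ Fin q) → ℂ)
        (p : MvPolynomial (Option (Fin (N + 1) ⊕ Fin q)) (MvPolynomial (CI N d) ℤ)),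
        eval₂ (aeval a : MvPolynomial (CI N d) ℤ →ₐ[ℤ] ℂ).toRingHom y p =
        ptc d (gF N d a) (fun j => y (some (Sum.inl j))) (fun i => y (some (Sum.inr i)))
          (y none) p := by
      intro y p
      unfold ptc
      rw [sp_gF, coe_eval₂Hom]
      congr 1
      funext o
      rcases o with _ | (o | o) <;> rfl
    have hmapF : ∀ i, MvPolynomial.map (sp d (gF N d a)).toRingHom (uF N d i) = gF N d a i :=
      map_uF d (gF N d a) (gF_hom d a)
    obtain ⟨h, hh, hI⟩ := transfer (Ideal.span S) a haZ (by
      intro y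
      by_contra hcon
      push Not at hcon
      set x : Fin (N + 1) → ℂ := fun j => y (some (Sum.inl j)) with hx
      set m : Fin q → ℂ := fun i => y (some (Sum.inr i)) with hm
      have hS : ∀ p ∈ S, ptc d (gF N d a) x m (y none) p = 0 := fun p hp => by
        rw [← hkey]
        exact hcon p (Ideal.subset_span hp)
      have hF0 : ∀ i, m i * eval x (gF N d a i) = 0 := by
        intro i
        have h1 := hS _ (Or.inl (Or.inl ⟨i, rfl⟩))
        rw [map_mul, ptc_X, ptc_uE, hmapF] at h1
        exact h1
      have hD : ∀ k, ∑ i, m i * eval x (pderiv k (gF N d a i)) = 0 := by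
        intro k
        have h1 := hS _ (Or.inl (Or.inr ⟨k, rfl⟩))
        rw [map_sum] at h1
        rw [← h1]
        refine Finset.sum_congr rfl fun i _ => ?_
        rw [map_mul, ptc_X, ptc_uE, ← pderiv_map, hmapF]
        rfl
      have hxm : x j ≠ 0 ∧ m i0 ≠ 0 := by
        have h1 := hS _ (Or.inr rfl)
        rw [map_sub, map_mul, map_mul, map_one, ptc_X, ptc_X, ptc_X] at h1
        simp only [Option.elim_some, Sum.elim_inl, Sum.elim_inr] at h1
        constructor
        · intro h0
          simp only [h0, zero_mul, mul_zero, zero_sub, neg_eq_zero] at h1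
          exact one_ne_zero h1
        · intro h0
          simp only [h0, mul_zero, zero_sub, neg_eq_zero] at h1
          exact one_ne_zero h1
      have hdeg : (Finsupp.single j (d i0)).degree = d i0 := by
        rw [Finsupp.degree_single]
      obtain ⟨D, hDer, -, hD1, hD0⟩ := exists_dualK ha (⟨i0, Finsupp.single j (d i0), hdeg⟩ : CI N d)
      have h2 : ∀ i, m i ≠ 0 → (0 : ℂ) = (if i = i0 then x j ^ d i0 else 0) +
          ∑ k, eval x (pderiv k (gF N d a i)) * D (x k) := by
        intro i hmi
        have h2 := hDer.chain (k := ℂ) x (gF N d a i)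
        have hE : (aeval x) (gF N d a i) = 0 := by
          rw [aeval_eq_eval]
          exact (mul_eq_zero.1 (hF0 i)).resolve_left hmi
        rw [hE, hDer.zero] at h2
        simp only [RingHom.id_apply] at h2
        have h3 : ∀ k, (aeval x) (pderiv k (gF N d a i)) = eval x (pderiv k (gF N d a i)) :=
          fun k => by rw [aeval_eq_eval]
        simp only [h3] at h2
        refine h2.trans (congrArg₂ (· + ·) ?_ rfl)
        · have hz : ∀ β ∈ (gF N d a i).support, ¬ (i = i0 ∧ β = Finsupp.single j (d i0)) →
              D (algebraMap ℂ ℂ (coeff β (gF N d a i))) = 0 := by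
            intro β hβ hne
            have hβd : β.degree = d i := by
              rw [Finsupp.degree_eq_weight_one]
              exact gF_hom d a i (mem_support_iff.1 hβ)
            have h5 := coeff_gF d a ⟨i, β, hβd⟩
            have h6 := hD0 ⟨i, β, hβd⟩ (by
              intro h7
              apply hne
              rw [Sigma.mk.injEq] at h7
              obtain ⟨h8, h9⟩ := h7
              subst h8
              rw [heq_eq_eq, Subtype.mk.injEq] at h9
              exact ⟨rfl, h9⟩)
            rw [← h6, ← h5]
            rfl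
          by_cases hi : i = i0
          · subst hi
            rw [if_pos rfl, Finset.sum_eq_single (Finsupp.single j (d i))]
            · have h4 : D (algebraMap ℂ ℂ (coeff (Finsupp.single j (d i)) (gF N d a i))) = 1 := by
                have h5 := coeff_gF d a ⟨i, Finsupp.single j (d i), hdeg⟩
                rw [← hD1, ← h5]
                rfl
              have h6 : ((Finsupp.single j (d i)).prod fun i k => x i ^ k) = x j ^ d i := by
                rw [Finsupp.prod_single_index]
                exact pow_zero _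
              rw [h4, aeval_monomial, map_one, one_mul, h6, mul_one]
            · intro β hβ hne
              rw [hz β hβ (fun h => hne h.2), mul_zero]
            · intro hn
              exfalso
              rw [notMem_support_iff] at hn
              have h5 := coeff_gF d a ⟨i, Finsupp.single j (d i), hdeg⟩
              simp only at h5
              rw [hn] at h5
              exact (ha.ne_zero ⟨i, Finsupp.single j (d i), hdeg⟩) h5.symm
          · rw [if_neg hi]
            exact Finset.sum_eq_zero fun β hβ => by rw [hz β hβ (fun h => hi h.1), mul_zero]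
      have h3 : ∑ i, m i * ((if i = i0 then x j ^ d i0 else 0) +
          ∑ k, eval x (pderiv k (gF N d a i)) * D (x k)) = 0 :=
        Finset.sum_eq_zero fun i _ => by
          by_cases hmi : m i = 0
          · rw [hmi, zero_mul]
          · rw [← h2 i hmi, mul_zero]
      simp only [mul_add, Finset.sum_add_distrib, mul_ite, mul_zero, Finset.sum_ite_eq',
        Finset.mem_univ, if_true] at h3
      have h4 : ∑ i, m i * ∑ k, eval x (pderiv k (gF N d a i)) * D (x k) = 0 := by
        simp only [Finset.mul_sum]
        rw [Finset.sum_comm]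
        refine Finset.sum_eq_zero fun k _ => ?_
        simp only [← mul_assoc]
        rw [← Finset.sum_mul, hD k, zero_mul]
      rw [h4, add_zero] at h3
      exact mul_ne_zero hxm.2 (pow_ne_zero _ hxm.1) h3)
    refine ⟨h, hh, ?_⟩
    intro L _ F hF hsp x m hx hm
    by_contra hxm
    have hmF : ∀ i, MvPolynomial.map (sp d F).toRingHom (uF N d i) = F i := map_uF d F hF
    have hle : Ideal.span S ≤ RingHom.ker (ptc d F x m (x j * m i0)⁻¹) := by
      rw [Ideal.span_le]
      rintro p ((⟨i, rfl⟩ | ⟨k, rfl⟩) | rfl)
      · change ptc d F x m _ _ = 0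
        rw [map_mul, ptc_X, ptc_uE, hmF]
        exact hx i
      · change ptc d F x m _ _ = 0
        rw [map_sum, ← hm k]
        refine Finset.sum_congr rfl fun i _ => ?_
        rw [map_mul, ptc_X, ptc_uE, ← pderiv_map, hmF]
        rfl
      · change ptc d F x m _ _ = 0
        rw [map_sub, map_mul, map_mul, map_one, ptc_X, ptc_X, ptc_X]
        simp only [Option.elim_some, Option.elim_none, Sum.elim_inl, Sum.elim_inr]
        rw [inv_mul_cancel₀ hxm, sub_self]
    have h5 : ptc d F x m (x j * m i0)⁻¹ (C h) = 0 := hle hI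
    rw [ptc_C] at h5
    exact hsp h5
  choose h hh0 hh using key
  refine ⟨∏ j, ∏ i, h j i, Finset.prod_ne_zero_iff.2 fun j _ => Finset.prod_ne_zero_iff.2
    fun i _ => hh0 j i, ?_⟩
  intro L _ F hF hsp x hx
  simp only [map_prod, Finset.prod_ne_zero_iff] at hsp
  obtain ⟨j, hj⟩ := Function.ne_iff.1 hx
  rw [Fintype.linearIndependent_iff]
  intro m hm i
  set m' : Fin q → L := fun i => if h : eval x (F i) = 0 then m ⟨i, h⟩ else 0 with hm'
  have h1 := hh j i.1 L F hF (hsp j (Finset.mem_univ j) i.1 (Finset.mem_univ i.1)) x m' (by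
    intro i
    by_cases h : eval x (F i) = 0
    · rw [h, mul_zero]
    · simp only [hm', dif_neg h, zero_mul]) (by
    intro k
    have h2 := congrFun hm k
    rw [Finset.sum_apply] at h2
    simp only [Pi.smul_apply, smul_eq_mul, Pi.zero_apply] at h2
    rw [← h2]
    have h4 : ∀ i : {i // eval x (F i) = 0}, m i * eval x (pderiv k (F i.1)) =
        m' i.1 * eval x (pderiv k (F i.1)) := by
      intro i
      simp only [hm', dif_pos i.2]
    rw [Finset.sum_congr rfl fun i _ => h4 i]
    have h5 : ∑ i ∈ Finset.univ.filter (fun i => eval x (F i) = 0),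
        m' i * eval x (pderiv k (F i)) =
        ∑ i : {i // eval x (F i) = 0}, m' i.1 * eval x (pderiv k (F i.1)) :=
      Finset.sum_subtype _ (by simp) _
    rw [← h5, Finset.sum_filter]
    refine Finset.sum_congr rfl fun i _ => ?_
    split_ifs with h
    · rfl
    · simp only [hm', dif_neg h, zero_mul])
  have h6 := (mul_eq_zero.1 h1).resolve_left hj
  simp only [hm', dif_pos i.2] at h6
  exact h6

/-- **General complete intersections are smooth.** -/
theorem gen_smooth_ci (N : ℕ) (d : Fin q → ℕ) :
    ∃ h : MvPolynomial (CI N d) ℤ, h ≠ 0 ∧ ∀ (L : Type) [Field L]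
      (F : Fin q → MvPolynomial (Fin (N + 1)) L), (∀ i, (F i).IsHomogeneous (d i)) →
      sp d F h ≠ 0 → ∀ x : Fin (N + 1) → L, x ≠ 0 → (∀ i, eval x (F i) = 0) →
      LinearIndependent L (fun i => fun k => eval x (pderiv k (F i))) := by
  obtain ⟨h, hh0, hh⟩ := gen_snc N d
  refine ⟨h, hh0, fun L _ F hF hsp x hx hxF => ?_⟩
  have h1 := hh L F hF hsp x hx
  exact h1.comp (fun i => ⟨i, hxF i⟩) (fun i i' h => by simpa using h)

end Pool.Agent.Q51.HG
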