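import Mathlib
import Pool.Agent.Q51.HG.Arith
import Pool.Agent.TH409.SH.Fin2

set_option autoImplicit false

/-!
# Points which are sparse in some base
-/

namespace Pool.Agent.Q51.HG

open Finset Height Height.AdmissibleAbsValues Pool.Agent.H533R3.SL MvPolynomial NumberField
  Pool.Agent.H458.Sp Pool.Agent.TH409.SH

variable {n r q : ℕ} {K : Type} [Field K] {ι : Type}

theorem cur_append {R : Type} [CommRing R] {s m : ℕ} (c : Fin s → Fin (n + 1) → R)
    (l : Fin s → ℕ) (i : Fin (n + 1)) :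
    cur (Fin.append c (fun (_ : Fin m) _ => 0)) (Fin.append l (fun _ => 0)) i = cur c l i := by
  unfold cur
  rw [Fin.sum_univ_add]
  simp [Fin.append_left, Fin.append_right]

theorem NoCur.mono {F : ι → MvPolynomial (Fin (n + 1)) K} {Ω : Type} [Field Ω] [Algebra K Ω]
    (h : NoCur r F Ω) {s : ℕ} (hs : s ≤ r) : NoCur s F Ω := by
  obtain ⟨m, rfl⟩ := Nat.exists_eq_add_of_le hs
  intro c l hc i1 i2
  have h1 : cur (Fin.append c (fun (_ : Fin m) _ => 0)) (Fin.append l (fun _ => 0)) = cur c l :=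
    funext fun i => cur_append c l i
  have h2 := h (Fin.append c (fun (_ : Fin m) _ => 0)) (Fin.append l (fun _ => 0))
    (fun i => by rw [h1]; exact hc i) i1 i2
  have h3 : ∀ i, ∑ j, (Fin.append c (fun (_ : Fin m) _ => (0 : Ω))) j i = ∑ j, c j i := by
    intro i
    rw [Fin.sum_univ_add]
    simp [Fin.append_left, Fin.append_right]
  rw [h1, h3, h3] at h2
  exact h2

/-- **The height inequality for points which are sparse in some base.** -/
theorem sparse_height {k : Type} [Field k] [NumberField k]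
    (F : ι → MvPolynomial (Fin (n + 1)) (𝓞 k)) (d : ℕ) (hd : 1 ≤ d) (A : ℝ) (hA : 1 ≤ A)
    (hF : ∀ i, (∃ e, e ≤ d ∧ (F i).IsHomogeneous e) ∧ nrm (F i) ≤ A) (hr : 1 ≤ r)
    {K : Type} [Field K] [NumberField K] [Algebra k K]
    (hno : NoCur r (fun i => MvPolynomial.map (algebraMap (𝓞 k) k) (F i)) K)
    (t : K) (l : Fin r → ℕ) (v : Fin r → Fin (n + 1) → K) (x : Fin (n + 1) → K)
    (hx : OnSparse t l v x) (hz : ∀ i, aeval x (MvPolynomial.map (algebraMap (𝓞 k) k) (F i)) = 0) :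
    ah K x ≤ (1 + 8 * (4 * d) ^ r) *
      (d * ah K (fun q : Fin r × Fin (n + 1) => v q.1 q.2) + Real.log (A * r ^ d)) := by
  have hFF : ∀ G ∈ Set.range F, (∃ e, e ≤ d ∧ G.IsHomogeneous e) ∧ nrm G ≤ A := by
    rintro _ ⟨i, rfl⟩
    exact hF i
  have hz' : ∀ F' ∈ (MvPolynomial.map ((algebraMap k K).comp (algebraMap (𝓞 k) k))) ''
      (Set.range F), aeval x F' = 0 := by
    rintro _ ⟨_, ⟨i, rfl⟩, rfl⟩
    rw [← MvPolynomial.map_map, aeval_map_algebraMap]
    exact hz i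
  rcases dichK _ d hd A hA (hyps (K := K) (Set.range F) d A hFF) hr t l v x hx.1 hx.2 hz' with
    ⟨lam, hcur, i, i', hc⟩ | h
  · exfalso
    apply hc
    have h1 := hno (fun j i => t ^ (l j) * v j i) lam (fun i => by
      have h1 := hcur _ ⟨F i, ⟨i, rfl⟩, rfl⟩
      rw [← MvPolynomial.map_map, aeval_map_algebraMap] at h1
      exact h1) i i'
    rw [hx.2 i, hx.2 i']
    exact h1
  · have h2 := log_bound d A hA hr _ v x h
    exact ah_bound (r := r) d A x (logHeight (fun q : Fin r × Fin (n + 1) => v q.1 q.2))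
      (h2.trans (le_of_eq (by unfold bd; push_cast; ring)))

end Pool.Agent.Q51.HG

/-! ### Integral forms and rational points -/

namespace Pool.Agent.Q51.HG

open Finset Height Height.AdmissibleAbsValues Pool.Agent.H533R3.SL MvPolynomial NumberField
  Pool.Agent.H458.Sp Pool.Agent.TH409.SH

variable {n r q : ℕ} {ι : Type}

theorem hs_intCast {k : Type} [Field k] [NumberField k] (c : ℤ) :
    hs ((c : 𝓞 k)) = |(c : ℝ)| := by
  have hnat : ∀ m : ℕ, hs ((m : 𝓞 k)) = m := by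
    intro m
    have := hs_natmul (k := k) m 1
    rw [mul_one, hs_one, mul_one] at this
    exact this
  rcases Int.le_total 0 c with h | h
  · obtain ⟨m, rfl⟩ := Int.eq_ofNat_of_zero_le h
    simp [hnat]
  · obtain ⟨m, hm⟩ := Int.eq_ofNat_of_zero_le (neg_nonneg.2 h)
    have h1 : c = -(m : ℤ) := by
      rw [← hm]
      simp
    subst h1
    rw [Int.cast_neg, hs_neg]
    simp [hnat]

/-- the sum of the absolute values of the coefficients -/
theorem nrm_map_int {k : Type} [Field k] [NumberField k] {τ : Type} (F : MvPolynomial τ ℤ) :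
    nrm (MvPolynomial.map (algebraMap ℤ (𝓞 k)) F) ≤ ((∑ α ∈ F.support, |coeff α F| : ℤ) : ℝ) := by
  rw [nrm_eq (MvPolynomial.map (algebraMap ℤ (𝓞 k)) F) F.support (support_map_subset _ _)]
  push_cast
  refine Finset.sum_le_sum fun α _ => ?_
  rw [coeff_map]
  have h1 : algebraMap ℤ (𝓞 k) (coeff α F) = ((coeff α F : ℤ) : 𝓞 k) := by simp
  rw [h1, hs_intCast]

/-- the height of an integral vector -/
theorem mulHeight_int_le {ι : Type} [Fintype ι] [Nonempty ι] (v : ι → ℤ) (b : ℝ) (hb : 1 ≤ b)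
    (hv : ∀ i, |(v i : ℝ)| ≤ b) : mulHeight (fun i => (v i : ℚ)) ≤ b := by
  classical
  by_cases hv0 : v = 0
  · subst hv0
    have h1 : (fun i : ι => (((0 : ι → ℤ) i : ℤ) : ℚ)) = 0 := by
      funext i
      simp
    rw [h1]
    simp only [mulHeight_zero]
    exact hb
  set g : ℤ := Finset.univ.gcd v with hg
  have hg0 : g ≠ 0 := by
    intro h
    apply hv0
    funext i
    exact Finset.gcd_eq_zero_iff.1 h i (Finset.mem_univ i)
  obtain ⟨i0, hi0⟩ : ∃ i, v i ≠ 0 := by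
    by_contra h
    push Not at h
    exact hv0 (funext h)
  obtain ⟨w, hw, hw1⟩ := Finset.extract_gcd v (s := Finset.univ) ⟨i0, Finset.mem_univ _⟩
  have h2 : (fun i => (v i : ℚ)) = (g : ℚ) • (((↑) : ℤ → ℚ) ∘ w) := by
    funext i
    rw [Pi.smul_apply, smul_eq_mul, Function.comp_apply, ← Int.cast_mul]
    rw [hw i (Finset.mem_univ i)]
  rw [h2, mulHeight_smul_eq_mulHeight _ (by exact_mod_cast hg0),
    Rat.mulHeight_eq_max_abs_of_gcd_eq_one hw1]
  rw [Finite.map_iSup_of_monotone (fun i => |w i|) (Int.cast_mono (R := ℝ))]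
  refine ciSup_le fun i => ?_
  have h3 : |(v i : ℝ)| = |(g : ℝ)| * |(w i : ℝ)| := by
    rw [← abs_mul, ← Int.cast_mul, hw i (Finset.mem_univ i)]
  have h4 : (1 : ℝ) ≤ |(g : ℝ)| := by
    have : (1 : ℤ) ≤ |g| := Int.one_le_abs hg0
    exact_mod_cast this
  have h5 := hv i
  rw [h3] at h5
  push_cast
  nlinarith [abs_nonneg (w i : ℝ)]

/-- the coordinates of a primitive integral vector -/
theorem abs_le_mulHeight {ι : Type} [Fintype ι] [Nonempty ι] (x : ι → ℤ)
    (hx : Finset.univ.gcd x = 1) (i : ι) : |(x i : ℝ)| ≤ mulHeight (fun i => (x i : ℚ)) := by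
  have h1 := Rat.mulHeight_eq_max_abs_of_gcd_eq_one hx
  have h2 : mulHeight (fun i => (x i : ℚ)) = ((⨆ i, |x i| : ℤ) : ℝ) := h1
  rw [h2]
  have h3 : |x i| ≤ ⨆ i, |x i| := le_ciSup (f := fun i => |x i|) (Finite.bddAbove_range _) i
  have h4 : ((|x i| : ℤ) : ℝ) ≤ ((⨆ i, |x i| : ℤ) : ℝ) := by exact_mod_cast h3
  simpa using h4

/-- **Primitive integral zeros which are sparse in some base are small.** -/
theorem sparse_int (F : ι → MvPolynomial (Fin (n + 1)) ℤ) (d : ℕ) (hd : 1 ≤ d) (A : ℕ) (hA : 1 ≤ A)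
    (hF : ∀ i, (∃ e, e ≤ d ∧ (F i).IsHomogeneous e) ∧ ∑ α ∈ (F i).support, |coeff α (F i)| ≤ A)
    (hr : 1 ≤ r) (hno : NoCur r (fun i => MvPolynomial.map (algebraMap ℤ ℚ) (F i)) ℚ)
    (b : ℕ) (hb : 1 ≤ b) (l : Fin r → ℕ) (v : Fin r → Fin (n + 1) → ℤ) (hv : ∀ j i, |v j i| ≤ b)
    (x : Fin (n + 1) → ℤ) (hx1 : Finset.univ.gcd x = 1)
    (hx : ∀ i, x i = ∑ j, (b : ℤ) ^ (l j) * v j i) (hz : ∀ i, aeval x (F i) = 0)
    (i : Fin (n + 1)) :
    |x i| ≤ ((A : ℤ) * r ^ d * b ^ d) ^ (1 + 8 * (4 * d) ^ r) := by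
  have hx0 : (fun i => (x i : ℚ)) ≠ 0 := by
    intro h
    have h1 : x = 0 := by
      funext i
      have := congrFun h i
      simpa using this
    rw [h1] at hx1
    have : Finset.univ.gcd (0 : Fin (n + 1) → ℤ) = 0 := Finset.gcd_eq_zero_iff.2 (by simp)
    rw [this] at hx1
    exact zero_ne_one hx1
  have hcomp : ∀ i, MvPolynomial.map (algebraMap (𝓞 ℚ) ℚ)
      (MvPolynomial.map (algebraMap ℤ (𝓞 ℚ)) (F i)) = MvPolynomial.map (algebraMap ℤ ℚ) (F i) := by
    intro i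
    rw [MvPolynomial.map_map]
    congr 1
  have h1 := sparse_height (k := ℚ) (K := ℚ) (fun i => MvPolynomial.map (algebraMap ℤ (𝓞 ℚ)) (F i))
    d hd A (by exact_mod_cast hA) (fun i => by
      obtain ⟨⟨e, he, hFe⟩, hA'⟩ := hF i
      refine ⟨⟨e, he, hFe.map _⟩, (nrm_map_int (F i)).trans ?_⟩
      exact_mod_cast hA') hr (by simp_rw [hcomp]; exact hno) (b : ℚ) l (fun j i => (v j i : ℚ))
    (fun i => (x i : ℚ)) ⟨hx0, fun i => by
      have h := hx i
      show (x i : ℚ) = _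
      rw [h]
      push_cast
      rfl⟩ (fun i => by
      rw [hcomp]
      have h2 : aeval (fun i => (x i : ℚ)) (MvPolynomial.map (algebraMap ℤ ℚ) (F i)) =
          algebraMap ℤ ℚ (aeval x (F i)) := by
        rw [aeval_map_algebraMap]
        have h3 : (fun i => (x i : ℚ)) = fun i => algebraMap ℤ ℚ (x i) := by
          funext i
          simp
        rw [h3]
        exact aeval_algebraMap_apply ℚ x (F i)
      rw [h2, hz i, map_zero])
  unfold ah at h1
  rw [Module.finrank_self, Nat.cast_one, div_one, div_one, logHeight_eq_log_mulHeight,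
    logHeight_eq_log_mulHeight] at h1
  have hr1 : (1 : ℝ) ≤ r := by exact_mod_cast hr
  have hb1 : (1 : ℝ) ≤ b := by exact_mod_cast hb
  have hA1 : (1 : ℝ) ≤ A := by exact_mod_cast hA
  have hne : Nonempty (Fin r) := ⟨⟨0, by omega⟩⟩
  have h2 : mulHeight (fun q : Fin r × Fin (n + 1) => (v q.1 q.2 : ℚ)) ≤ b :=
    mulHeight_int_le (fun q : Fin r × Fin (n + 1) => v q.1 q.2) b hb1 (fun q => by
      have := hv q.1 q.2
      have h3 : ((|v q.1 q.2| : ℤ) : ℝ) ≤ ((b : ℤ) : ℝ) := by exact_mod_cast this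
      simpa using h3)
  have h3 := Real.log_le_log (mulHeight_pos _) h2
  have hd1 : (0 : ℝ) ≤ d := Nat.cast_nonneg d
  have h4 : Real.log (mulHeight (fun i => (x i : ℚ))) ≤
      (1 + 8 * (4 * (d : ℝ)) ^ r) * Real.log (A * r ^ d * b ^ d) := by
    refine h1.trans ?_
    rw [Real.log_mul (x := (A : ℝ) * r ^ d) (by positivity) (by positivity), Real.log_pow]
    refine mul_le_mul_of_nonneg_left ?_ (by positivity)
    nlinarith [mul_le_mul_of_nonneg_left h3 hd1]
  have h5 : (1 + 8 * (4 * (d : ℝ)) ^ r) = ((1 + 8 * (4 * d) ^ r : ℕ) : ℝ) := by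
    push_cast
    ring
  rw [h5, ← Real.log_pow] at h4
  have h6 := (Real.log_le_log_iff (mulHeight_pos _) (by positivity)).1 h4
  have h7 := (abs_le_mulHeight x hx1 i).trans h6
  have h8 : ((|x i| : ℤ) : ℝ) ≤ ((((A : ℤ) * r ^ d * b ^ d) ^ (1 + 8 * (4 * d) ^ r) : ℤ) : ℝ) := by
    push_cast
    exact h7
  exact_mod_cast h8

end Pool.Agent.Q51.HG
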