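import Mathlib
import Pool.Agent.Q51.HG.PairsHt

set_option autoImplicit false

/-!
# Points whose coordinates are sums of `r` units
-/

namespace Pool.Agent.Q51.HG

open Finset IsDedekindDomain NumberField
open MvPolynomial hiding psum
open Pool.Agent.H533R3.SL Pool.Agent.W235.RM Pool.Agent.Y215.AF
open Pool.Agent.Helper259.AbsHt Pool.Agent.Y215.SK
open Pool.Agent.Y215.SP (epsn)
open scoped LinearAlgebra.Projectivization

variable {n q r : ℕ} {k : Type} [Field k]

/-- finiteness over a subfield -/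
theorem finite_of_emb {L : Type} [Field L] (φ : L →+* Qbar) (S : Set (Fin (n + 1) → L))
    (N : Set (ℙ Qbar (Fin (n + 1) → Qbar))) (hN : N.Finite)
    (h : ∀ x ∈ S, ∀ h : (fun a => φ (x a)) ≠ 0, Projectivization.mk Qbar _ h ∈ N) :
    {P : ℙ L (Fin (n + 1) → L) | ∃ x ∈ S, ∃ h : x ≠ 0, P = Projectivization.mk L x h}.Finite := by
  classical
  have hne : ∀ x : Fin (n + 1) → L, x ≠ 0 → (fun a => φ (x a)) ≠ 0 := by
    intro x hx h0
    apply hx
    funext a
    have := congrFun h0 a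
    exact (map_eq_zero φ).1 this
  have hch : ∀ P : ℙ L (Fin (n + 1) → L), ∃ x : Fin (n + 1) → L,
      (∃ x ∈ S, ∃ h : x ≠ 0, P = Projectivization.mk L x h) →
      x ∈ S ∧ ∃ h : x ≠ 0, P = Projectivization.mk L x h := by
    intro P
    by_cases hP : ∃ x ∈ S, ∃ h : x ≠ 0, P = Projectivization.mk L x h
    · obtain ⟨x, hx, h1⟩ := hP
      exact ⟨x, fun _ => ⟨hx, h1⟩⟩
    · exact ⟨0, fun h => absurd h hP⟩
  choose X hX using hch
  let θ : ℙ L (Fin (n + 1) → L) → ℙ Qbar (Fin (n + 1) → Qbar) := fun P =>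
    if h : (fun a => φ (X P a)) ≠ 0 then Projectivization.mk Qbar _ h
    else Projectivization.mk Qbar (fun _ => 1) (fun h => one_ne_zero (congrFun h 0))
  refine Set.Finite.of_injOn (f := θ) (t := N) ?_ ?_ hN
  · intro P hP
    obtain ⟨h1, h2, -⟩ := hX P hP
    have h3 := hne _ h2
    simp only [θ, dif_pos h3]
    exact h _ h1 h3
  · intro P hP Q hQ hPQ
    obtain ⟨h1, h2, h3⟩ := hX P hP
    obtain ⟨h1', h2', h3'⟩ := hX Q hQ
    have h4 := hne _ h2
    have h4' := hne _ h2'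
    simp only [θ, dif_pos h4, dif_pos h4'] at hPQ
    rw [Projectivization.mk_eq_mk_iff'] at hPQ
    obtain ⟨c, hc⟩ := hPQ
    rw [h3, h3', Projectivization.mk_eq_mk_iff']
    obtain ⟨a0, ha0⟩ := Function.ne_iff.1 h2'
    refine ⟨X P a0 / X Q a0, ?_⟩
    have hc0 := congrFun hc a0
    simp only [Pi.smul_apply, smul_eq_mul] at hc0
    have hQ0 : φ (X Q a0) ≠ 0 := (map_ne_zero φ).2 ha0
    have hcφ : c = φ (X P a0 / X Q a0) := by
      rw [map_div₀, eq_div_iff hQ0, hc0]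
    funext a
    have h5 := congrFun hc a
    simp only [Pi.smul_apply, smul_eq_mul] at h5
    rw [hcφ, ← map_mul] at h5
    exact φ.injective h5

/-- the unit vectors -/
noncomputable def uvec (n r : ℕ) (j : Fin ((n + 1) * r)) (a : Fin (n + 1)) : Qbar :=
  if (finProdFinEquiv.symm j).1 = a then 1 else 0

variable {L : Type} [Field L] [NumberField L] [Algebra k L]

theorem aeval_emb (φ : L →+* Qbar) (x : Fin (n + 1) → L) (p : MvPolynomial (Fin (n + 1)) k) :
    letI : Algebra k Qbar := (φ.comp (algebraMap k L)).toAlgebra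
    aeval (fun a => φ (x a)) p = φ (aeval x p) := by
  let _ : Algebra k Qbar := (φ.comp (algebraMap k L)).toAlgebra
  rw [aeval_def, aeval_def, MvPolynomial.hom_eval₂]
  rfl

theorem hA_zero_one_lt (s : Fin r → Qbar) (h : ∀ j, s j = 0 ∨ s j = 1) {ε : ℝ} (hε : 0 < ε) :
    hA s < ε := by
  rw [hA_zero_one s h]
  exact hε

theorem abs_zero_one_lt (s : Fin r → Qbar) (h : ∀ j, s j = 0 ∨ s j = 1) {ε : ℝ} (hε : 0 < ε) :
    absLogHeight s < ε := by
  have h1 := absLogHeight_comp_le (fun j : Fin r => (some j : Option (Fin r)))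
    (fun o : Option (Fin r) => o.elim (1 : Qbar) s)
  have h2 := hA_zero_one s h
  unfold hA at h2
  rw [h2] at h1
  exact lt_of_le_of_lt h1 hε

/-- **Sums of units on projective varieties without curves with few terms.** -/
theorem proj_units (F : Fin q → MvPolynomial (Fin (n + 1)) k) {d : Fin q → ℕ}
    (hF : ∀ i, (F i).IsHomogeneous (d i)) (hno : NoCurP ((n + 1) * r) Finset.univ F)
    (S : Set (HeightOneSpectrum (𝓞 L))) (hS : S.Finite) :
    {P : ℙ L (Fin (n + 1) → L) | ∃ x ∈ {x : Fin (n + 1) → L | (∀ i, aeval x (F i) = 0) ∧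
      ∀ a, UnitSum S r (x a)}, ∃ h : x ≠ 0, P = Projectivization.mk L x h}.Finite := by
  classical
  obtain ⟨φ⟩ := exists_emb L
  let _ : Algebra k Qbar := (φ.comp (algebraMap k L)).toAlgebra
  have hdD : ∀ i, d i ≤ ∑ i, d i + 1 := fun i =>
    (Finset.single_le_sum (f := d) (fun _ _ => Nat.zero_le _) (Finset.mem_univ i)).trans
      (Nat.le_succ _)
  obtain ⟨A, e, hA⟩ := proj_near (r := (n + 1) * r) F hF (SU φ S) (SU_fg φ S hS) hno
    (∑ i, d i + 1) (by omega) hdD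
  have hε : 0 < epsn ((∑ i, d i + 1 + 1) ^ ((n + 1) * r)) / ((∑ i, d i + 1 : ℕ) : ℝ) / 2 :=
    half_pos (div_pos (Pool.Agent.Y215.SP.epsn_pos _ (Nat.one_le_pow _ _ (by omega)))
      (by positivity))
  refine finite_of_emb φ _ _ (hA (uvec n r)).1 ?_
  rintro x ⟨hx, hu⟩ hne
  obtain ⟨u, s, h1, h2, h3⟩ := unit_vectors φ S r x hu
  have h4 : psum Finset.univ u (fun j a => s j * uvec n r j a) = fun a => φ (x a) := by
    funext a
    rw [h3 a]
    unfold Pool.Agent.Y215.SK.psum uvec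
    exact Finset.sum_congr rfl fun j _ => by ring
  refine ⟨u, s, fun j => sub_hull _ _ (h1 j), abs_zero_one_lt s h2 hε, ?_, ?_⟩
  · rw [h4]
    refine ⟨hne, fun i => ?_, by rw [map_one]; exact one_ne_zero⟩
    rw [aeval_emb φ x, hx i, map_zero]
  · refine ⟨by rw [h4]; exact hne, ?_⟩
    congr 1
    exact h4.symm

/-- **Sums of units on pairs without curves with few terms.** -/
theorem pair_units [CharZero k] (Z : Finset (Fin q)) (b0 : Fin q) (hb : b0 ∉ Z)
    (F : Fin q → MvPolynomial (Fin (n + 1)) k) {d : Fin q → ℕ} (hd0 : 0 < d b0)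
    (hF : ∀ i, (F i).IsHomogeneous (d i)) (hno : NoCurP ((n + 1) * r + q) Z F)
    (S : Set (HeightOneSpectrum (𝓞 L))) (hS : S.Finite) :
    {P : ℙ L (Fin (n + 1) → L) | ∃ x ∈ {x : Fin (n + 1) → L | (∀ i ∈ Z, aeval x (F i) = 0) ∧
      (∀ i, i ∉ Z → ∃ w : Lˣ, w ∈ S.unit L ∧ aeval x (F i) = (w : L)) ∧
      ∀ a, UnitSum S r (x a)}, ∃ h : x ≠ 0, P = Projectivization.mk L x h}.Finite := by
  classical
  obtain ⟨φ⟩ := exists_emb L
  let _ : Algebra k Qbar := (φ.comp (algebraMap k L)).toAlgebra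
  obtain ⟨A, e, hA⟩ := pair_near (r := (n + 1) * r) Z b0 hb F hd0 hF (SU φ S) (SU_fg φ S hS) hno
  have hε : 0 < Pool.Agent.Y215.AF.eps (∑ i, d i + 1) ((n + 1) * r + q) :=
    Pool.Agent.Y215.AF.eps_pos _ _ (by omega)
  refine finite_of_emb φ _ _ (hA (uvec n r)).1 ?_
  rintro x ⟨hx, hw, hu⟩ hne
  obtain ⟨u, s, h1, h2, h3⟩ := unit_vectors φ S r x hu
  have h4 : (fun a => ∑ j, (u j : Qbar) * s j * uvec n r j a) = fun a => φ (x a) := by
    funext a
    rw [h3 a]
    rfl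
  refine ⟨u, s, by rw [h4]; exact hne, fun j => sub_hull _ _ (h1 j), hA_zero_one_lt s h2 hε, ?_, ?_⟩
  · congr 1
    exact h4.symm
  · rw [h4]
    refine ⟨fun i hi => ?_, fun i hi => ?_⟩
    · rw [aeval_emb φ x, hx i hi, map_zero]
    · obtain ⟨w, hwS, hwx⟩ := hw i hi
      refine ⟨Units.map (φ : L →* Qbar) w, sub_hull _ _ (Subgroup.mem_map_of_mem _ hwS), ?_⟩
      rw [aeval_emb φ x, hwx]
      rfl

end Pool.Agent.Q51.HG
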